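import Pool.Agent.Y246.LG.Pos
import Pool.Agent.Y532.LG.Real
import Pool.Agent.Y908.LG.Lim

/-!
# Passage to the limit (helper246)
-/

set_option autoImplicit false

namespace Pool.Agent.Y246.LG

open Polynomial Filter Topology

/-- Locally uniform limits on `ℂ` of real polynomials with only real negative zeros. -/
def LPplus (φ : ℂ → ℂ) : Prop := ∃ P : ℕ → ℝ[X], (∀ m, NegRoots (P m)) ∧
  TendstoLocallyUniformly (fun m z => aeval z (P m)) φ atTop

theorem tlu_iter {F : ℕ → ℂ → ℂ} {φ : ℂ → ℂ} (hF : ∀ m, Differentiable ℂ (F m))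
    (h : TendstoLocallyUniformlyOn F φ atTop Set.univ) (j : ℕ) :
    TendstoLocallyUniformlyOn (fun m => iteratedDeriv j (F m)) (iteratedDeriv j φ) atTop Set.univ ∧
    ∀ m, Differentiable ℂ (iteratedDeriv j (F m)) := by
  induction j with
  | zero => exact ⟨by simpa using h, fun m => by simpa using hF m⟩
  | succ j ih =>
    obtain ⟨h1, h2⟩ := ih
    refine ⟨?_, fun m => ?_⟩
    · have := h1.deriv (Eventually.of_forall fun m => (h2 m).differentiableOn) isOpen_univ
      simp only [iteratedDeriv_succ]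
      exact this
    · rw [iteratedDeriv_succ]
      exact (h2 m).deriv

theorem laguerreT_eq_LT (f : ℝ → ℝ) (x : ℝ) (n : ℕ) : ∀ k : ℕ,
    laguerreT f n k x = LT n (fun j => iteratedDeriv j f x) k := by
  induction n with
  | zero => intro k; rfl
  | succ n ih =>
    intro k
    simp only [laguerreT, LT, ih]

theorem aeval_re (P : ℝ[X]) (y : ℝ) : (aeval (y : ℂ) P).re = P.eval y := by
  have h : aeval (y : ℂ) P = ((P.eval y : ℝ) : ℂ) := by
    have := Polynomial.aeval_algebraMap_apply ℂ y P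
    rw [Complex.coe_algebraMap] at this
    rw [this]
    simp
  rw [h, Complex.ofReal_re]

theorem closure_pos {n k : ℕ} (h : ∀ P : ℝ[X], NegRoots P → ∀ x : ℝ, 0 ≤ x →
      0 ≤ laguerreT (fun y => P.eval y) n k x) {φ : ℂ → ℂ} (hφ : LPplus φ) {x : ℝ} (hx : 0 ≤ x) :
    0 ≤ laguerreT (fun y : ℝ => (φ y).re) n k x := by
  obtain ⟨P, hP, hlim⟩ := hφ
  have hd : ∀ m, Differentiable ℂ (fun z : ℂ => aeval z (P m)) := fun m =>
    Polynomial.differentiable_aeval _
  have hlim' := tendstoLocallyUniformlyOn_univ.2 hlim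
  have hdφ : Differentiable ℂ φ := by
    have := hlim'.differentiableOn (Eventually.of_forall fun m => (hd m).differentiableOn)
      isOpen_univ
    exact differentiableOn_univ.1 this
  rw [laguerreT_eq_LT]
  simp only [Pool.Agent.Y532.LG.t_real φ hdφ]
  have h1 : ∀ j, Tendsto (fun m => (iteratedDeriv j (fun z : ℂ => aeval z (P m)) (x : ℂ)).re) atTop
      (𝓝 (iteratedDeriv j φ (x : ℂ)).re) := by
    intro j
    have := (tlu_iter hd hlim' j).1.tendsto_at (Set.mem_univ (x : ℂ))
    exact (Complex.continuous_re.tendsto _).comp this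
  have h2 := Pool.Agent.Y908.LG.LT_tendsto (l := atTop)
    (fun (m : ℕ) (j : ℕ) => (iteratedDeriv j (fun z : ℂ => aeval z (P m)) (x : ℂ)).re) _ h1 n k
  refine ge_of_tendsto' h2 fun m => ?_
  have h3 := h (P m) (hP m) x hx
  rw [laguerreT_eq_LT] at h3
  have h4 : (fun y : ℝ => (P m).eval y) = fun y : ℝ => (aeval (y : ℂ) (P m)).re := by
    funext y
    rw [aeval_re]
  rw [h4] at h3
  have h5 := Pool.Agent.Y532.LG.t_real (fun z : ℂ => aeval z (P m)) (hd m)
  simp only [h5] at h3
  exact h3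

end Pool.Agent.Y246.LG
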