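import Pool.Agent.Y246.LG.Cls

/-!
# From large `k` to all `k`, and the explicit examples at the levels one and two (helper246)
-/

set_option autoImplicit false

namespace Pool.Agent.Y246.LG

open Polynomial

theorem LT_congr (n : ℕ) : ∀ (k : ℕ) (γ δ : ℕ → ℝ), (∀ j, γ j = δ j) → LT n γ k = LT n δ k := by
  intro k γ δ h
  rw [funext h]

theorem LT_shift (γ : ℕ → ℝ) (i : ℕ) (n : ℕ) : ∀ k : ℕ, n + 1 ≤ k →
    LT n (fun j => γ (j + i)) k = LT n γ (k + i) := by
  induction n with
  | zero =>
    intro k hk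
    simp only [LT]
    rw [show k - 1 + i = k + i - 1 by omega, show k + 1 + i = k + i + 1 by omega]
  | succ n ih =>
    intro k hk
    simp only [LT]
    rw [ih k (by omega), ih (k - 1) (by omega), ih (k + 1) (by omega),
      show k - 1 + i = k + i - 1 by omega, show k + 1 + i = k + i + 1 by omega]

theorem LT_zero (n : ℕ) : ∀ k : ℕ, LT n (fun _ => 0) k = 0 := by
  induction n with
  | zero => intro k; simp [LT]
  | succ n ih => intro k; simp [LT, ih]

theorem LT_homog (lam mu : ℝ) (γ : ℕ → ℝ) (n : ℕ) : ∀ k : ℕ, n + 1 ≤ k →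
    LT n (fun j => lam * mu ^ j * γ j) k = lam ^ 2 ^ (n + 1) * (mu ^ k) ^ 2 ^ (n + 1) * LT n γ k := by
  induction n with
  | zero =>
    intro k hk
    obtain ⟨m, rfl⟩ : ∃ m, k = m + 1 := ⟨k - 1, by omega⟩
    simp only [LT, Nat.add_sub_cancel]
    ring
  | succ n ih =>
    intro k hk
    obtain ⟨m, rfl⟩ : ∃ m, k = m + 1 := ⟨k - 1, by omega⟩
    simp only [LT, Nat.add_sub_cancel]
    rw [ih m (by omega), ih (m + 1) (by omega), ih (m + 1 + 1) (by omega)]
    have e1 : ∀ x : ℝ, x ^ 2 ^ (n + 1 + 1) = (x ^ 2 ^ (n + 1)) ^ 2 := by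
      intro x
      rw [← pow_mul, pow_succ 2 (n + 1)]
    have e2 : mu ^ m * mu ^ (m + 1 + 1) = (mu ^ (m + 1)) ^ 2 := by ring
    have e3 : (mu ^ m) ^ 2 ^ (n + 1) * (mu ^ (m + 1 + 1)) ^ 2 ^ (n + 1) =
        ((mu ^ (m + 1)) ^ 2 ^ (n + 1)) ^ 2 := by
      rw [← mul_pow, e2]
      exact pow_right_comm _ _ _
    rw [e1, e1]
    linear_combination (-(lam ^ 2 ^ (n + 1)) ^ 2 * LT n γ m * LT n γ (m + 1 + 1)) * e3

theorem negRoots_derivative {P : ℝ[X]} (hP : NegRoots P) (h0 : derivative P ≠ 0) :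
    NegRoots (derivative P) := by
  refine ⟨h0, fun z hz => ?_⟩
  set p : ℂ[X] := P.map (algebraMap ℝ ℂ) with hp
  have hd : derivative p = (derivative P).map (algebraMap ℝ ℂ) := by rw [hp, derivative_map]
  have hdeg : 0 < p.degree := by
    rw [← natDegree_pos_iff_degree_pos, hp, natDegree_map]
    by_contra hc
    have : P.natDegree = 0 := by omega
    exact h0 (derivative_of_natDegree_zero this)
  have h1 := rootSet_derivative_subset_convexHull_rootSet hdeg
  have hz' : z ∈ p.derivative.rootSet ℂ := by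
    rw [mem_rootSet]
    refine ⟨?_, ?_⟩
    · rw [hd]
      exact (Polynomial.map_ne_zero_iff (algebraMap ℝ ℂ).injective).2 h0
    · rw [hd, aeval_map_algebraMap]
      exact hz
  have h2 : convexHull ℝ (p.rootSet ℂ) ⊆ {z : ℂ | z.im = 0 ∧ z.re < 0} := by
    refine convexHull_min ?_ ?_
    · intro w hw
      rw [mem_rootSet] at hw
      have := hw.2
      rw [hp, aeval_map_algebraMap] at this
      exact hP.2 w this
    · have c1 : Convex ℝ {z : ℂ | z.im = 0} := by
        intro x hx y hy a b ha hb hab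
        simp only [Set.mem_ofPred_eq] at hx hy ⊢
        simp [hx, hy]
      have c2 : Convex ℝ {z : ℂ | z.re < 0} := convex_halfSpace_re_lt 0
      exact c1.inter c2
  exact h2 (h1 hz')

theorem negRoots_iterate {P : ℝ[X]} (hP : NegRoots P) : ∀ i : ℕ, derivative^[i] P ≠ 0 →
    NegRoots (derivative^[i] P) := by
  intro i
  induction i with
  | zero => intro _; exact hP
  | succ i ih =>
    intro h0
    rw [Function.iterate_succ_apply'] at h0 ⊢
    have h1 : derivative^[i] P ≠ 0 := by
      intro hc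
      rw [hc] at h0
      exact h0 (by simp)
    exact negRoots_derivative (ih h1) h0

/-- From large `k` to all `k`. -/
theorem allK {n : ℕ} (h : ∃ k₀ : ℕ, ∀ k : ℕ, k₀ ≤ k → ∃ P : ℝ[X], NegRoots P ∧
      LT n (fun j => (j.factorial : ℝ) * P.coeff j) k < 0) (k : ℕ) (hk : n + 1 ≤ k) :
    ∃ P : ℝ[X], NegRoots P ∧ LT n (fun j => (j.factorial : ℝ) * P.coeff j) k < 0 := by
  obtain ⟨k₀, hk₀⟩ := h
  obtain ⟨P, hP, hneg⟩ := hk₀ (k + k₀) (by omega)
  have hc : ∀ j, (j.factorial : ℝ) * (derivative^[k₀] P).coeff j =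
      ((j + k₀).factorial : ℝ) * P.coeff (j + k₀) := by
    intro j
    rw [coeff_iterate_derivative, nsmul_eq_mul, ← mul_assoc]
    congr 1
    have := Nat.factorial_mul_descFactorial (Nat.le_add_left k₀ j)
    rw [Nat.add_sub_cancel] at this
    exact_mod_cast this
  have h1 : LT n (fun j => (j.factorial : ℝ) * (derivative^[k₀] P).coeff j) k < 0 := by
    rw [LT_congr n k _ _ hc, LT_shift (fun j => (j.factorial : ℝ) * P.coeff j) k₀ n k hk]
    exact hneg
  refine ⟨derivative^[k₀] P, negRoots_iterate hP k₀ ?_, h1⟩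
  intro h0
  rw [h0] at h1
  simp only [coeff_zero, mul_zero] at h1
  rw [LT_zero] at h1
  exact lt_irrefl _ h1

/-- The operator `q' - c q`. -/
noncomputable def Ac (c : ℂ) (q : ℂ[X]) : ℂ[X] := derivative q - C c * q

theorem Ac_two (c : ℂ) (hc : c ≠ 0) (j : ℕ) : (Ac c)^[j] ((X + 1) ^ 2) =
    C ((-c) ^ j) * ((X + 1) ^ 2 - C (2 * j / c) * (X + 1) + C (j * (j - 1) / c ^ 2)) := by
  induction j with
  | zero => simp
  | succ j ih =>
    rw [Function.iterate_succ_apply', ih]
    unfold Ac
    refine Polynomial.funext fun z => ?_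
    simp only [derivative_mul, derivative_C, zero_mul, zero_add, derivative_add, derivative_sub,
      derivative_pow, derivative_X, derivative_one, add_zero, mul_one, eval_add, eval_sub, eval_mul,
      eval_C, eval_pow, eval_X, eval_one, eval_zero]
    push_cast
    field_simp
    ring

theorem Ac_three (c : ℂ) (hc : c ≠ 0) (j : ℕ) : (Ac c)^[j] ((X + 1) ^ 3) =
    C ((-c) ^ j) * ((X + 1) ^ 3 - C (3 * j / c) * (X + 1) ^ 2 +
      C (3 * (j * (j - 1)) / c ^ 2) * (X + 1) - C (j * (j - 1) * (j - 2) / c ^ 3)) := by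
  induction j with
  | zero => simp
  | succ j ih =>
    rw [Function.iterate_succ_apply', ih]
    unfold Ac
    refine Polynomial.funext fun z => ?_
    simp only [derivative_mul, derivative_C, zero_mul, zero_add, derivative_add, derivative_sub,
      derivative_pow, derivative_X, derivative_one, add_zero, mul_one, eval_add, eval_sub, eval_mul,
      eval_C, eval_pow, eval_X, eval_one, eval_zero]
    push_cast
    field_simp
    ring

end Pool.Agent.Y246.LG
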