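import Pool.Agent.Y246.LG.Stm3

/-!
# Augmented monomial symmetric sums (helper246)
-/

set_option autoImplicit false

namespace Pool.Agent.Y246.LG

open Finset

variable {ι : Type} [DecidableEq ι]

theorem aug_nil (a : ι → ℝ) (s : Finset ι) : aug a [] s = 1 := by
  unfold aug
  rfl

theorem aug_cons (a : ι → ℝ) (c : ℕ) (l : List ℕ) (s : Finset ι) :
    aug a (c :: l) s = ∑ x ∈ s, a x ^ c * aug a l (s.erase x) := by
  rw [aug]

theorem aug_nonneg {a : ι → ℝ} (ha : ∀ i, 0 ≤ a i) (l : List ℕ) : ∀ s : Finset ι, 0 ≤ aug a l s := by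
  induction l with
  | nil => intro s; rw [aug_nil]; exact zero_le_one
  | cons c l ih =>
    intro s
    rw [aug_cons]
    exact Finset.sum_nonneg fun x _ => mul_nonneg (pow_nonneg (ha x) _) (ih _)

theorem aug_swap (a : ι → ℝ) (c d : ℕ) (l : List ℕ) (s : Finset ι) :
    aug a (c :: d :: l) s = aug a (d :: c :: l) s := by
  have h : ∀ c d : ℕ, aug a (c :: d :: l) s =
      ∑ x ∈ s, ∑ y ∈ s, if x = y then 0 else a x ^ c * (a y ^ d * aug a l ((s.erase x).erase y)) := by
    intro c d
    rw [aug_cons]
    refine Finset.sum_congr rfl fun x hx => ?_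
    rw [aug_cons, Finset.mul_sum, ← Finset.sum_erase_add _ _ hx, if_pos rfl, add_zero]
    refine Finset.sum_congr rfl fun y hy => ?_
    rw [if_neg]
    exact fun h => (Finset.ne_of_mem_erase hy) h.symm
  rw [h, h, Finset.sum_comm]
  refine Finset.sum_congr rfl fun x _ => Finset.sum_congr rfl fun y _ => ?_
  by_cases hxy : x = y
  · rw [if_pos hxy.symm, if_pos hxy]
  · rw [if_neg (fun h => hxy h.symm), if_neg hxy, Finset.erase_right_comm]
    ring

/-- The sum of all lists obtained from `l` by adding `r` to one entry. -/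
noncomputable def augAdd (a : ι → ℝ) (r : ℕ) (p : List ℕ) : List ℕ → Finset ι → ℝ
  | [], _ => 0
  | c :: l, s => aug a (p ++ (c + r) :: l) s + augAdd a r (p ++ [c]) l s

theorem augAdd_cons (a : ι → ℝ) (r d : ℕ) (l : List ℕ) : ∀ (p : List ℕ) (s : Finset ι),
    augAdd a r (d :: p) l s = ∑ x ∈ s, a x ^ d * augAdd a r p l (s.erase x) := by
  induction l with
  | nil => intro p s; simp [augAdd]
  | cons c l ih =>
    intro p s
    simp only [augAdd]
    rw [List.cons_append, aug_cons, show d :: p ++ [c] = d :: (p ++ [c]) from rfl, ih,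
      ← Finset.sum_add_distrib]
    exact Finset.sum_congr rfl fun x _ => by rw [mul_add]

theorem aug_rule (a : ι → ℝ) (r : ℕ) (l : List ℕ) : ∀ s : Finset ι,
    aug a [r] s * aug a l s = aug a (r :: l) s + augAdd a r [] l s := by
  induction l with
  | nil =>
    intro s
    simp [augAdd, aug_nil]
  | cons c l ih =>
    intro s
    have h1 : aug a [r] s * aug a (c :: l) s =
        ∑ x ∈ s, (a x ^ c * (aug a [r] (s.erase x) * aug a l (s.erase x)) +
          a x ^ (c + r) * aug a l (s.erase x)) := by
      rw [aug_cons a c l, Finset.mul_sum]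
      refine Finset.sum_congr rfl fun x hx => ?_
      have h2 : aug a [r] s = aug a [r] (s.erase x) + a x ^ r := by
        rw [aug_cons, aug_cons]
        simp only [aug_nil, mul_one]
        rw [← Finset.sum_erase_add _ _ hx]
      rw [h2, pow_add]
      ring
    rw [h1]
    simp only [ih, mul_add, Finset.sum_add_distrib, augAdd, List.nil_append]
    rw [aug_swap, aug_cons a c (r :: l), aug_cons a (c + r) l, augAdd_cons]
    ring

/-- The recursion expressing `aug` by power sums. -/
theorem aug_rec (a : ι → ℝ) (r c : ℕ) (l : List ℕ) (s : Finset ι) :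
    aug a (r :: c :: l) s = aug a [r] s * aug a (c :: l) s - augAdd a r [] (c :: l) s := by
  rw [aug_rule]
  ring

end Pool.Agent.Y246.LG
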