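import Pool.Agent.Y246.LG.Stm2

/-!
# The class of entire functions of order at most one with negative zeros (helper246)
-/

set_option autoImplicit false

namespace Pool.Agent.Y246.LG

open Polynomial

/-- Real entire functions of order at most one all of whose zeros are real and negative. -/
def InClass (φ : ℂ → ℂ) : Prop :=
  Differentiable ℂ φ ∧ RealTaylor φ ∧
  (∀ ε : ℝ, 0 < ε → ∃ A : ℝ, ∀ z : ℂ, ‖φ z‖ ≤ A * Real.exp (‖z‖ ^ (1 + ε))) ∧
  ∀ z : ℂ, φ z = 0 → z.im = 0 ∧ z.re < 0

theorem growth (K a b : ℝ) (hK : 0 ≤ K) (ha : 0 < a) (hab : a < b) :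
    ∃ B : ℝ, ∀ r : ℝ, 0 ≤ r → K * r ^ a ≤ r ^ b + B := by
  refine ⟨K * (K ^ (1 / (b - a))) ^ a, fun r hr => ?_⟩
  have hba : 0 < b - a := by linarith
  rcases le_or_gt (K ^ (1 / (b - a))) r with h | h
  · rcases hr.eq_or_lt with h0 | h0
    · rw [← h0, Real.zero_rpow ha.ne', Real.zero_rpow (by linarith), mul_zero, zero_add]
      positivity
    have h1 : K ≤ r ^ (b - a) := by
      calc K = (K ^ (1 / (b - a))) ^ (b - a) := by
            rw [← Real.rpow_mul hK, one_div, inv_mul_cancel₀ hba.ne', Real.rpow_one]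
        _ ≤ r ^ (b - a) := Real.rpow_le_rpow (by positivity) h hba.le
    have h2 : K * r ^ a ≤ r ^ b := by
      calc K * r ^ a ≤ r ^ (b - a) * r ^ a := mul_le_mul_of_nonneg_right h1 (by positivity)
        _ = r ^ b := by rw [← Real.rpow_add h0]; congr 1; ring
    have h3 : 0 ≤ K * (K ^ (1 / (b - a))) ^ a := by positivity
    linarith
  · have h1 : K * r ^ a ≤ K * (K ^ (1 / (b - a))) ^ a :=
      mul_le_mul_of_nonneg_left (Real.rpow_le_rpow hr h.le ha.le) hK
    have h2 : 0 ≤ r ^ b := by positivity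
    linarith

/-- A sufficient growth condition. -/
theorem order_of {φ : ℂ → ℂ}
    (h : ∀ ε : ℝ, 0 < ε → ∃ A K a : ℝ, 0 ≤ K ∧ 0 < a ∧ a < 1 + ε ∧
      ∀ z : ℂ, ‖φ z‖ ≤ A * Real.exp (K * ‖z‖ ^ a)) :
    ∀ ε : ℝ, 0 < ε → ∃ A : ℝ, ∀ z : ℂ, ‖φ z‖ ≤ A * Real.exp (‖z‖ ^ (1 + ε)) := by
  intro ε hε
  obtain ⟨A, K, a, hK, ha, ha', hA⟩ := h ε hε
  obtain ⟨B, hB⟩ := growth K a (1 + ε) hK ha ha'
  refine ⟨|A| * Real.exp B, fun z => (hA z).trans ?_⟩
  calc A * Real.exp (K * ‖z‖ ^ a) ≤ |A| * Real.exp (K * ‖z‖ ^ a) :=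
        mul_le_mul_of_nonneg_right (le_abs_self A) (Real.exp_nonneg _)
    _ ≤ |A| * Real.exp (‖z‖ ^ (1 + ε) + B) :=
        mul_le_mul_of_nonneg_left (Real.exp_le_exp.2 (hB _ (norm_nonneg z))) (abs_nonneg A)
    _ = |A| * Real.exp B * Real.exp (‖z‖ ^ (1 + ε)) := by
        rw [Real.exp_add]; ring

theorem realTaylor_mul {ψ Φ : ℂ → ℂ} (h1 : Differentiable ℂ ψ) (h2 : Differentiable ℂ Φ)
    (r1 : RealTaylor ψ) (r2 : RealTaylor Φ) : RealTaylor (fun z => ψ z * Φ z) := by
  intro j
  rw [iteratedDeriv_fun_mul (h1.contDiff.contDiffAt) (h2.contDiff.contDiffAt), Complex.im_sum]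
  refine Finset.sum_eq_zero fun i _ => ?_
  simp [Complex.mul_im, r1 i, r2 (j - i)]

theorem InClass.mul {ψ Φ : ℂ → ℂ} (h1 : InClass ψ) (h2 : InClass Φ) :
    InClass (fun z => ψ z * Φ z) := by
  obtain ⟨d1, r1, o1, z1⟩ := h1
  obtain ⟨d2, r2, o2, z2⟩ := h2
  refine ⟨d1.mul d2, realTaylor_mul d1 d2 r1 r2, order_of ?_, fun z hz => ?_⟩
  · intro ε hε
    obtain ⟨A, hA⟩ := o1 (ε / 2) (by positivity)
    obtain ⟨B, hB⟩ := o2 (ε / 2) (by positivity)
    refine ⟨|A| * |B|, 2, 1 + ε / 2, by norm_num, by positivity, by linarith, fun z => ?_⟩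
    rw [norm_mul]
    calc ‖ψ z‖ * ‖Φ z‖ ≤ (|A| * Real.exp (‖z‖ ^ (1 + ε / 2))) * (|B| * Real.exp (‖z‖ ^ (1 + ε / 2))) := by
          refine mul_le_mul ((hA z).trans ?_) ((hB z).trans ?_) (norm_nonneg _) (by positivity)
          · exact mul_le_mul_of_nonneg_right (le_abs_self A) (Real.exp_nonneg _)
          · exact mul_le_mul_of_nonneg_right (le_abs_self B) (Real.exp_nonneg _)
      _ = |A| * |B| * Real.exp (2 * ‖z‖ ^ (1 + ε / 2)) := by
          rw [two_mul, Real.exp_add]; ring
  · rcases mul_eq_zero.1 hz with h | h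
    · exact z1 z h
    · exact z2 z h

theorem InClass.dil {Φ : ℂ → ℂ} (h2 : InClass Φ) {R : ℝ} (hR : 0 < R) :
    InClass (fun z => Φ (R * z)) := by
  obtain ⟨d2, r2, o2, z2⟩ := h2
  refine ⟨d2.comp (differentiable_id.const_mul (R : ℂ)), fun j => ?_, order_of ?_, fun z hz => ?_⟩
  · rw [iteratedDeriv_comp_const_mul d2.contDiff]
    show ((R : ℂ) ^ j * iteratedDeriv j Φ (R * 0)).im = 0
    rw [mul_zero, ← Complex.ofReal_pow, Complex.im_ofReal_mul, r2 j, mul_zero]
  · intro ε hε
    obtain ⟨B, hB⟩ := o2 (ε / 2) (by positivity)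
    refine ⟨B, R ^ (1 + ε / 2), 1 + ε / 2, by positivity, by positivity, by linarith, fun z => ?_⟩
    refine (hB _).trans (le_of_eq ?_)
    rw [norm_mul, Complex.norm_real, Real.norm_of_nonneg hR.le,
      Real.mul_rpow hR.le (norm_nonneg z)]
  · obtain ⟨h1, h3⟩ := z2 _ hz
    rw [Complex.im_ofReal_mul] at h1
    rw [Complex.re_ofReal_mul] at h3
    exact ⟨(mul_eq_zero.1 h1).resolve_left hR.ne', by nlinarith⟩

theorem iteratedDeriv_poly (p : ℂ[X]) (j : ℕ) (z : ℂ) :
    iteratedDeriv j (fun z => p.eval z) z = (derivative^[j] p).eval z := by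
  induction j generalizing p z with
  | zero => simp
  | succ j ih =>
    rw [iteratedDeriv_succ', Function.iterate_succ_apply]
    have : deriv (fun z => p.eval z) = fun z => (derivative p).eval z := by
      funext z
      exact Polynomial.deriv p
    rw [this, ih]

theorem inClass_poly {P : ℝ[X]} (hP : NegRoots P) : InClass (fun z => aeval z P) := by
  have hev : ∀ z : ℂ, aeval z P = (P.map (algebraMap ℝ ℂ)).eval z := fun z => by
    rw [eval_map_algebraMap]
  refine ⟨?_, fun j => ?_, order_of ?_, hP.2⟩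
  · exact Polynomial.differentiable_aeval P
  · simp only [hev]
    rw [iteratedDeriv_poly, ← coeff_zero_eq_eval_zero, iterate_derivative_map, coeff_map]
    exact Complex.ofReal_im _
  · intro ε hε
    refine ⟨∑ j ∈ Finset.range (P.natDegree + 1), |P.coeff j| * (j.factorial : ℝ), 1, 1,
      by norm_num, by norm_num, by linarith, fun z => ?_⟩
    rw [aeval_eq_sum_range, Finset.sum_mul]
    refine (norm_sum_le _ _).trans (Finset.sum_le_sum fun j _ => ?_)
    rw [norm_smul, norm_pow, Real.norm_eq_abs, mul_assoc, Real.rpow_one, one_mul]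
    refine mul_le_mul_of_nonneg_left ?_ (abs_nonneg _)
    have := Real.pow_div_factorial_le_exp ‖z‖ (norm_nonneg z) j
    rw [div_le_iff₀ (by positivity)] at this
    linarith

theorem iteratedDeriv_expmul (c : ℂ) (p : ℂ[X]) (j : ℕ) (z : ℂ) :
    iteratedDeriv j (fun z => Complex.exp (-c * z) * p.eval z) z =
      Complex.exp (-c * z) * ((fun q : ℂ[X] => derivative q - C c * q)^[j] p).eval z := by
  induction j generalizing p z with
  | zero => simp
  | succ j ih =>
    rw [iteratedDeriv_succ', Function.iterate_succ_apply]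
    have : deriv (fun z => Complex.exp (-c * z) * p.eval z) =
        fun z => Complex.exp (-c * z) * (derivative p - C c * p).eval z := by
      funext z
      have h1 : HasDerivAt (fun z => Complex.exp (-c * z)) (Complex.exp (-c * z) * (-c)) z := by
        have := ((hasDerivAt_id z).const_mul (-c)).cexp
        simpa using this
      have h2 := h1.mul (p.hasDerivAt z)
      rw [show (fun z => Complex.exp (-c * z) * p.eval z) =
        (fun z => Complex.exp (-c * z)) * (fun z => p.eval z) from rfl, h2.deriv]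
      simp only [eval_sub, eval_mul, eval_C]
      ring
    rw [this, ih]

theorem inClass_exp (c : ℝ) : InClass (fun z => Complex.exp (-(c : ℂ) * z)) := by
  refine ⟨?_, fun j => ?_, order_of ?_, fun z hz => absurd hz (Complex.exp_ne_zero _)⟩
  · exact (differentiable_id.const_mul _).cexp
  · have h := iteratedDeriv_expmul (c : ℂ) 1 j 0
    simp only [eval_one, mul_one] at h
    rw [h]
    have h2 : ∀ j : ℕ, (fun q : ℂ[X] => derivative q - C (c : ℂ) * q)^[j] 1 =
        C (((-c) ^ j : ℝ) : ℂ) := by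
      intro j
      induction j with
      | zero => simp
      | succ j ih =>
        rw [Function.iterate_succ_apply', ih]
        simp only [derivative_C, zero_sub, ← C_mul, ← C_neg]
        congr 1
        push_cast
        ring
    rw [h2, eval_C, mul_zero, Complex.exp_zero, one_mul, Complex.ofReal_im]
  · intro ε hε
    refine ⟨1, |c|, 1, abs_nonneg c, by norm_num, by linarith, fun z => ?_⟩
    rw [Complex.norm_exp, one_mul, Real.rpow_one]
    refine Real.exp_le_exp.2 ?_
    have h1 : (-(c : ℂ) * z).re = -c * z.re := by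
      rw [← Complex.ofReal_neg, Complex.re_ofReal_mul]
    rw [h1]
    calc -c * z.re ≤ |(-c) * z.re| := le_abs_self _
      _ = |c| * |z.re| := by rw [abs_mul, abs_neg]
      _ ≤ |c| * ‖z‖ := mul_le_mul_of_nonneg_left (Complex.abs_re_le_norm z) (abs_nonneg c)

end Pool.Agent.Y246.LG
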