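import Mathlib

/-!
# The Laguerre operator on polynomials (helper246)

`Lg f = f'^2 - f f''`; `Lg (Lg f)` is divisible by `f`; perturbations of high order.
-/

set_option autoImplicit false

namespace Pool.Agent.Y246.LG

open Polynomial

/-- The Laguerre operator. -/
noncomputable def Lg (f : ℝ[X]) : ℝ[X] :=
  derivative f * derivative f - f * derivative (derivative f)

/-- The cofactor of `f` in `Lg (Lg f)`. -/
noncomputable def Dd (f : ℝ[X]) : ℝ[X] :=
  -2 * derivative f * derivative (derivative f) * derivative (derivative (derivative f)) +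
    f * derivative (derivative (derivative f)) ^ 2 +
    derivative f ^ 2 * derivative (derivative (derivative (derivative f))) +
    derivative (derivative f) ^ 3 -
    f * derivative (derivative f) * derivative (derivative (derivative (derivative f)))

theorem Lg_Lg (f : ℝ[X]) : Lg (Lg f) = f * Dd f := by
  unfold Lg Dd
  simp only [map_sub, derivative_mul, map_add]
  ring

theorem Lg_smul (c : ℝ) (f : ℝ[X]) : Lg (C c * f) = C (c ^ 2) * Lg f := by
  unfold Lg
  simp only [derivative_C_mul, C_pow]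
  ring

theorem Lg_comp_X_add_C (a : ℝ) (f : ℝ[X]) : Lg (f.comp (X + C a)) = (Lg f).comp (X + C a) := by
  unfold Lg
  simp [derivative_comp, sub_comp, mul_comp, pow_comp]

theorem Lg_iter_comp (a : ℝ) (n : ℕ) (f : ℝ[X]) :
    Lg^[n] (f.comp (X + C a)) = (Lg^[n] f).comp (X + C a) := by
  induction n generalizing f with
  | zero => rfl
  | succ n ih => rw [Function.iterate_succ_apply, Function.iterate_succ_apply, Lg_comp_X_add_C, ih]

theorem Lg_iter_smul (c : ℝ) (n : ℕ) (f : ℝ[X]) :
    Lg^[n] (C c * f) = C (c ^ 2 ^ n) * Lg^[n] f := by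
  induction n generalizing f c with
  | zero => simp
  | succ n ih =>
    rw [Function.iterate_succ_apply, Function.iterate_succ_apply, Lg_smul, ih]
    congr 2
    rw [← pow_mul, pow_succ, mul_comm]

/-- `F` is a perturbation of `f` of order `r` with slope `κ`. -/
def Per (F : ℝ → ℝ[X]) (f : ℝ[X]) (r : ℕ) (κ : ℝ) : Prop :=
  ∀ ε, ∃ H : ℝ[X], F ε = f + X ^ r * H ∧ H.coeff 0 = ε * κ

theorem per_base (f : ℝ[X]) (r : ℕ) : Per (fun ε => f + C ε * X ^ r) f r 1 := by
  intro ε
  exact ⟨C ε, by ring, by simp⟩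

theorem C_cast (m : ℕ) : (C (m : ℝ) : ℝ[X]) = (m : ℝ[X]) := C_eq_natCast m

/-- The first derivative of a perturbation. -/
theorem der1 (m : ℕ) (H : ℝ[X]) : derivative (X ^ (m + 2) * H) =
    X ^ (m + 1) * (((m : ℝ[X]) + 2) * H + X * derivative H) := by
  rw [derivative_mul, derivative_X_pow, C_cast]
  push_cast
  ring

/-- The second derivative of a perturbation. -/
theorem der2 (m : ℕ) (H : ℝ[X]) : derivative (derivative (X ^ (m + 2) * H)) =
    X ^ m * (((m : ℝ[X]) + 2) * ((m : ℝ[X]) + 1) * H + 2 * ((m : ℝ[X]) + 2) * X * derivative H +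
      X ^ 2 * derivative (derivative H)) := by
  rw [der1, derivative_mul, derivative_X_pow, C_cast]
  push_cast
  simp only [derivative_add, derivative_mul, derivative_X, derivative_natCast, derivative_ofNat]
  ring

theorem per_one {F : ℝ → ℝ[X]} {f : ℝ[X]} {m : ℕ} {κ : ℝ} (h : Per F f (m + 2) κ) :
    Per (fun ε => Lg (F ε)) (Lg f) m (-(f.coeff 0 * ((m + 2) * (m + 1)) * κ)) := by
  intro ε
  obtain ⟨H, hH, hH0⟩ := h ε
  refine ⟨X * (2 * derivative f * (((m : ℝ[X]) + 2) * H + X * derivative H)) +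
    X ^ (m + 2) * (((m : ℝ[X]) + 2) * H + X * derivative H) ^ 2 -
    f * (((m : ℝ[X]) + 2) * ((m : ℝ[X]) + 1) * H + 2 * ((m : ℝ[X]) + 2) * X * derivative H +
      X ^ 2 * derivative (derivative H)) - X ^ 2 * H * derivative (derivative f) -
    X ^ (m + 2) * H * (((m : ℝ[X]) + 2) * ((m : ℝ[X]) + 1) * H + 2 * ((m : ℝ[X]) + 2) * X * derivative H +
      X ^ 2 * derivative (derivative H)), ?_, ?_⟩
  · show Lg (F ε) = _
    rw [hH]
    unfold Lg
    rw [derivative_add, derivative_add, der2, der1]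
    ring
  · have h1 : ((m : ℝ[X])).coeff 0 = (m : ℝ) := by
      rw [← C_eq_natCast, coeff_C_zero]
    have h2 : ((2 : ℝ[X])).coeff 0 = 2 := by simp
    have h3 : ((1 : ℝ[X])).coeff 0 = 1 := by simp
    simp only [coeff_sub, coeff_add, mul_coeff_zero, coeff_X_zero, zero_mul, mul_zero, hH0, h1, h2,
      h3, add_zero, sub_zero, pow_succ, zero_add]
    ring

theorem per_two {F : ℝ → ℝ[X]} {f : ℝ[X]} {m : ℕ} {κ : ℝ} (hf : f.coeff 0 = 0)
    (h : Per F f (m + 2) κ) :
    Per (fun ε => Lg (F ε)) (Lg f) (m + 1) (f.coeff 1 * ((m + 2) * (1 - m)) * κ) := by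
  intro ε
  obtain ⟨H, hH, hH0⟩ := h ε
  obtain ⟨u, hu⟩ : X ∣ f := X_dvd_iff.2 hf
  have hu1 : f.coeff 1 = u.coeff 0 := by
    rw [hu, coeff_X_mul]
  have hd1 : (derivative f).coeff 0 = u.coeff 0 := by
    rw [coeff_derivative, ← hu1]
    simp
  refine ⟨2 * derivative f * (((m : ℝ[X]) + 2) * H + X * derivative H) +
    X ^ (m + 1) * (((m : ℝ[X]) + 2) * H + X * derivative H) ^ 2 -
    u * (((m : ℝ[X]) + 2) * ((m : ℝ[X]) + 1) * H + 2 * ((m : ℝ[X]) + 2) * X * derivative H +
      X ^ 2 * derivative (derivative H)) - X * H * derivative (derivative f) -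
    X ^ (m + 1) * H * (((m : ℝ[X]) + 2) * ((m : ℝ[X]) + 1) * H + 2 * ((m : ℝ[X]) + 2) * X * derivative H +
      X ^ 2 * derivative (derivative H)), ?_, ?_⟩
  · show Lg (F ε) = _
    rw [hH]
    unfold Lg
    rw [derivative_add, derivative_add, der2, der1]
    linear_combination (-(X ^ m * (((m : ℝ[X]) + 2) * ((m : ℝ[X]) + 1) * H +
      2 * ((m : ℝ[X]) + 2) * X * derivative H + X ^ 2 * derivative (derivative H)))) * hu
  · have h1 : ((m : ℝ[X])).coeff 0 = (m : ℝ) := by
      rw [← C_eq_natCast, coeff_C_zero]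
    have h2 : ((2 : ℝ[X])).coeff 0 = 2 := by simp
    have h3 : ((1 : ℝ[X])).coeff 0 = 1 := by simp
    simp only [coeff_sub, coeff_add, mul_coeff_zero, coeff_X_zero, zero_mul, mul_zero, hH0, h1, h2,
      h3, hd1, hu1, add_zero, sub_zero, pow_succ]
    ring

end Pool.Agent.Y246.LG
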