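import Pool.Agent.Y246.LG.Aug

/-!
# The identities for the small Toeplitz determinants (helper246)
-/

set_option autoImplicit false

namespace Pool.Agent.Y246.LG

open Finset

variable {ι : Type} [DecidableEq ι] (a : ι → ℝ) (s : Finset ι)

theorem g2 : aug a [1, 1] s = aug a [1] s ^ 2 - aug a [2] s := by
  simp only [aug_rec, augAdd, List.nil_append, List.cons_append, Nat.reduceAdd]
  ring

theorem g3 : aug a [1, 1, 1] s = aug a [1] s ^ 3 - 3 * aug a [1] s * aug a [2] s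
    + 2 * aug a [3] s := by
  simp only [aug_rec, augAdd, List.nil_append, List.cons_append, Nat.reduceAdd]
  ring

theorem g4 : aug a [1, 1, 1, 1] s = aug a [1] s ^ 4 - 6 * aug a [1] s ^ 2 * aug a [2] s
    + 8 * aug a [1] s * aug a [3] s + 3 * aug a [2] s ^ 2 - 6 * aug a [4] s := by
  simp only [aug_rec, augAdd, List.nil_append, List.cons_append, Nat.reduceAdd]
  ring

theorem g5 : aug a [1, 1, 1, 1, 1] s = aug a [1] s ^ 5 - 10 * aug a [1] s ^ 3 * aug a [2] s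
    + 20 * aug a [1] s ^ 2 * aug a [3] s + 15 * aug a [1] s * aug a [2] s ^ 2
    - 30 * aug a [1] s * aug a [4] s - 20 * aug a [2] s * aug a [3] s + 24 * aug a [5] s := by
  simp only [aug_rec, augAdd, List.nil_append, List.cons_append, Nat.reduceAdd]
  ring

theorem g6 : aug a [1, 1, 1, 1, 1, 1] s = aug a [1] s ^ 6 - 15 * aug a [1] s ^ 4 * aug a [2] s
    + 40 * aug a [1] s ^ 3 * aug a [3] s + 45 * aug a [1] s ^ 2 * aug a [2] s ^ 2
    - 90 * aug a [1] s ^ 2 * aug a [4] s - 120 * aug a [1] s * aug a [2] s * aug a [3] s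
    - 15 * aug a [2] s ^ 3 + 144 * aug a [1] s * aug a [5] s + 90 * aug a [2] s * aug a [4] s
    + 40 * aug a [3] s ^ 2 - 120 * aug a [6] s := by
  simp only [aug_rec, augAdd, List.nil_append, List.cons_append, Nat.reduceAdd]
  ring

theorem idD2 : aug a [1, 1, 1] s ^ 2 - aug a [1, 1] s * aug a [1, 1, 1, 1] s =
    6 * aug a [2, 2, 2] s + 6 * aug a [2, 2, 1, 1] s + aug a [2, 1, 1, 1, 1] s := by
  rw [g2, g3, g4]
  simp only [aug_rec, augAdd, List.nil_append, List.cons_append, Nat.reduceAdd]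
  ring

/-- `D_3(3)`. -/
theorem idD3 : aug a [1, 1, 1] s ^ 3
      - 2 * aug a [1, 1] s * aug a [1, 1, 1] s * aug a [1, 1, 1, 1] s
      + aug a [1, 1] s ^ 2 * aug a [1, 1, 1, 1, 1] s + aug a [1] s * aug a [1, 1, 1, 1] s ^ 2
      - aug a [1] s * aug a [1, 1, 1] s * aug a [1, 1, 1, 1, 1] s =
    2 * aug a [1, 1, 1] s * aug a [2, 2, 2] s +
      (24 * aug a [3, 3, 3] s + 24 * aug a [3, 2, 2, 2] s + 4 * aug a [3, 3, 1, 1, 1] s
        - 12 * aug a [3, 2, 2, 1, 1] s + 12 * aug a [2, 2, 2, 2, 1] s) := by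
  rw [g2, g3, g4, g5]
  simp only [aug_rec, augAdd, List.nil_append, List.cons_append, Nat.reduceAdd]
  ring

/-- The determinant `D_3(2)`. -/
theorem idD32 : aug a [1, 1] s ^ 3 - 2 * aug a [1] s * aug a [1, 1] s * aug a [1, 1, 1] s
      + aug a [1] s ^ 2 * aug a [1, 1, 1, 1] s
      + (aug a [1, 1, 1] s ^ 2 - aug a [1, 1] s * aug a [1, 1, 1, 1] s) =
    2 * aug a [2, 2, 2] s + 4 * aug a [3, 3] s := by
  rw [g2, g3, g4]
  simp only [aug_rec, augAdd, List.nil_append, List.cons_append, Nat.reduceAdd]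
  ring

/-- The `4 × 4` Toeplitz determinant with the entries `g_{3 + j - i}`. -/
def det4 (g0 g1 g2 g3 g4 g5 g6 : ℝ) : ℝ :=
  g3 * (g3 * (g3 * g3 - g4 * g2) - g4 * (g2 * g3 - g4 * g1) + g5 * (g2 * g2 - g3 * g1))
  - g4 * (g2 * (g3 * g3 - g4 * g2) - g4 * (g1 * g3 - g4 * g0) + g5 * (g1 * g2 - g3 * g0))
  + g5 * (g2 * (g2 * g3 - g4 * g1) - g3 * (g1 * g3 - g4 * g0) + g5 * (g1 * g1 - g2 * g0))
  - g6 * (g2 * (g2 * g2 - g3 * g1) - g3 * (g1 * g2 - g3 * g0) + g4 * (g1 * g1 - g2 * g0))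

/-- `D_4(3)`. -/
theorem idD4 : det4 1 (aug a [1] s) (aug a [1, 1] s) (aug a [1, 1, 1] s) (aug a [1, 1, 1, 1] s)
      (aug a [1, 1, 1, 1, 1] s) (aug a [1, 1, 1, 1, 1, 1] s) =
    (16 * aug a [2, 2, 2, 2, 2, 2] s + 72 * aug a [4, 2, 2, 2, 2] s + 240 * aug a [4, 4, 4] s
      + 576 * aug a [4, 3, 3, 2] s - 144 * aug a [3, 3, 3, 3] s + 96 * aug a [3, 3, 2, 2, 2] s)
      - 4 * aug a [2, 2, 2] s ^ 2 := by
  rw [g2, g3, g4, g5, g6]
  unfold det4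
  simp only [aug_rec, augAdd, List.nil_append, List.cons_append, Nat.reduceAdd]
  ring

/-- The ring identity behind level two. -/
theorem T2_ring (g0 g1 g2 g3 g4 g5 g6 : ℝ) :
    (((g3 ^ 2 - g2 * g4) ^ 2 - (g2 ^ 2 - g1 * g3) * (g4 ^ 2 - g3 * g5)) ^ 2
      - ((g2 ^ 2 - g1 * g3) ^ 2 - (g1 ^ 2 - g0 * g2) * (g3 ^ 2 - g2 * g4)) *
        ((g4 ^ 2 - g3 * g5) ^ 2 - (g3 ^ 2 - g2 * g4) * (g5 ^ 2 - g4 * g6))) =
    (g3 ^ 2 - g2 * g4) * ((g3 ^ 3 - 2 * g2 * g3 * g4 + g2 ^ 2 * g5 + g1 * g4 ^ 2 - g1 * g3 * g5) ^ 2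
      + g2 * g4 * det4 g0 g1 g2 g3 g4 g5 g6) := by
  unfold det4
  ring

end Pool.Agent.Y246.LG
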