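import Pool.Agent.Y246.LG.Stm

/-!
# The induction on the level (helper246)
-/

set_option autoImplicit false

namespace Pool.Agent.Y246.LG

open Polynomial

theorem per_coeff_lt {F : ℝ → ℝ[X]} {f : ℝ[X]} {r : ℕ} {κ : ℝ} (h : Per F f r κ) {i : ℕ}
    (hi : i < r) (ε : ℝ) : (F ε).coeff i = f.coeff i := by
  obtain ⟨H, hH, -⟩ := h ε
  rw [hH, coeff_add, coeff_X_pow_mul', if_neg (by omega), add_zero]

theorem per_coeff_self {F : ℝ → ℝ[X]} {f : ℝ[X]} {r : ℕ} {κ : ℝ} (h : Per F f r κ) (ε : ℝ) :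
    (F ε).coeff r = f.coeff r + ε * κ := by
  obtain ⟨H, hH, hH0⟩ := h ε
  rw [hH, coeff_add, coeff_X_pow_mul', if_pos le_rfl, Nat.sub_self, hH0]

theorem per_iter_one {F : ℝ → ℝ[X]} {f : ℝ[X]} (e : ℕ) : ∀ (r : ℕ) {κ : ℝ}, κ ≠ 0 →
    Per F f (r + 2 * e) κ → (∀ i < e, (Lg^[i] f).coeff 0 ≠ 0) →
    ∃ κ' : ℝ, κ' ≠ 0 ∧ Per (fun ε => Lg^[e] (F ε)) (Lg^[e] f) r κ' := by
  induction e with
  | zero =>
    intro r κ hκ h _
    exact ⟨κ, hκ, by simpa using h⟩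
  | succ e ih =>
    intro r κ hκ h hne
    obtain ⟨κ', hκ', h'⟩ := ih (r + 2) hκ (by rwa [show r + 2 + 2 * e = r + 2 * (e + 1) by ring])
      (fun i hi => hne i (by omega))
    have h2 := per_one h'
    have e1 : ∀ p : ℝ[X], Lg^[e + 1] p = Lg (Lg^[e] p) := fun p =>
      Function.iterate_succ_apply' _ _ _
    simp only [e1]
    refine ⟨_, ?_, h2⟩
    have hr : ((r : ℝ) + 2) * ((r : ℝ) + 1) ≠ 0 := by positivity
    exact neg_ne_zero.2 (mul_ne_zero (mul_ne_zero (hne e (by omega)) hr) hκ')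

theorem Lg_coeff_zero {f : ℝ[X]} (hf : f.coeff 0 = 0) : (Lg f).coeff 0 = f.coeff 1 ^ 2 := by
  unfold Lg
  rw [coeff_sub, mul_coeff_zero, mul_coeff_zero, hf, coeff_derivative]
  simp
  ring

theorem Lg_Lg_coeff_zero {f : ℝ[X]} (hf : f.coeff 0 = 0) : (Lg (Lg f)).coeff 0 = 0 := by
  rw [Lg_Lg, mul_coeff_zero, hf, zero_mul]

theorem per_double {F : ℝ → ℝ[X]} {f : ℝ[X]} {s : ℕ} {κ : ℝ} (hκ : κ ≠ 0) (hf0 : f.coeff 0 = 0)
    (hf1 : f.coeff 1 ≠ 0) (h : Per F f (s + 4) κ) :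
    ∃ κ' : ℝ, κ' ≠ 0 ∧ Per (fun ε => Lg (Lg (F ε))) (Lg (Lg f)) (s + 1) κ' := by
  have h1 : Per (fun ε => Lg (F ε)) (Lg f) (s + 2 + 1)
      (f.coeff 1 * ((((s + 2 : ℕ) : ℝ) + 2) * (1 - ((s + 2 : ℕ) : ℝ))) * κ) := per_two hf0 h
  have h2 := per_one (m := s + 1) h1
  refine ⟨_, ?_, h2⟩
  have hs : (0 : ℝ) ≤ s := Nat.cast_nonneg s
  refine neg_ne_zero.2 (mul_ne_zero (mul_ne_zero ?_ ?_) (mul_ne_zero (mul_ne_zero hf1 ?_) hκ))
  · rw [Lg_coeff_zero hf0]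
    exact pow_ne_zero _ hf1
  · positivity
  · refine mul_ne_zero (by positivity) ?_
    push_cast
    intro hc
    nlinarith

theorem per_iter_two {F : ℝ → ℝ[X]} {f : ℝ[X]} (J : ℕ) : ∀ (s : ℕ) {κ : ℝ}, κ ≠ 0 →
    Per F f (s + 1 + 3 * J) κ →
    (∀ j < J, (Lg^[2 * j] f).coeff 0 = 0 ∧ (Lg^[2 * j] f).coeff 1 ≠ 0) →
    ∃ κ' : ℝ, κ' ≠ 0 ∧ Per (fun ε => Lg^[2 * J] (F ε)) (Lg^[2 * J] f) (s + 1) κ' := by
  induction J with
  | zero =>
    intro s κ hκ h _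
    exact ⟨κ, hκ, by simpa using h⟩
  | succ J ih =>
    intro s κ hκ h hne
    obtain ⟨κ', hκ', h'⟩ := ih (s + 3) hκ
      (by rwa [show s + 3 + 1 + 3 * J = s + 1 + 3 * (J + 1) by ring]) (fun i hi => hne i (by omega))
    obtain ⟨h0, h1⟩ := hne J (by omega)
    obtain ⟨κ'', hκ'', h''⟩ := per_double (s := s) hκ' h0 h1 h'
    refine ⟨κ'', hκ'', ?_⟩
    have e1 : ∀ p : ℝ[X], Lg^[2 * (J + 1)] p = Lg (Lg (Lg^[2 * J] p)) := by
      intro p
      rw [show 2 * (J + 1) = 2 * J + 1 + 1 by ring, Function.iterate_succ_apply',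
        Function.iterate_succ_apply']
    simp only [e1]
    exact h''

theorem exists_eps {c κ δ : ℝ} (hκ : κ ≠ 0) (hδ : 0 < δ) : ∃ ε : ℝ, |ε| < δ ∧ c + ε * κ ≠ 0 := by
  by_cases h : c + δ / 2 * κ = 0
  · refine ⟨δ / 3, ?_, ?_⟩
    · rw [abs_of_pos (by positivity)]
      linarith
    · intro h'
      have : δ * κ = 0 := by linarith
      rcases mul_eq_zero.1 this with h1 | h1
      · exact hδ.ne' h1
      · exact hκ h1
  · refine ⟨δ / 2, ?_, h⟩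
    rw [abs_of_pos (by positivity)]
    linarith

theorem coeff_zero_level {f : ℝ[X]} (e : ℕ) (h : (Lg^[e] f).coeff 0 = 0) (j : ℕ) :
    (Lg^[e + 2 * j] f).coeff 0 = 0 := by
  induction j with
  | zero => simpa using h
  | succ j ih =>
    rw [show e + 2 * (j + 1) = e + 2 * j + 1 + 1 by ring, Function.iterate_succ_apply',
        Function.iterate_succ_apply']
    exact Lg_Lg_coeff_zero ih

theorem level_comp (e j : ℕ) (f : ℝ[X]) : Lg^[e + 2 * j] f = Lg^[2 * j] (Lg^[e] f) := by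
  rw [add_comm, Function.iterate_add_apply]

theorem step (hop : S_OPEN) (e M : ℕ) (g : ℝ[X]) (hM : g.natDegree ≤ M) (hA : Alt M g)
    (hne : ∀ i < e, (Lg^[i] g).coeff 0 ≠ 0) (h0 : (Lg^[e] g).coeff 0 = 0) :
    ∀ J : ℕ, 2 * e + 1 + 3 * J ≤ M → ∃ g' : ℝ[X], g'.natDegree ≤ M ∧ Alt M g' ∧
      (∀ i < e, (Lg^[i] g').coeff 0 ≠ 0) ∧ (Lg^[e] g').coeff 0 = 0 ∧
      ∀ j ≤ J, (Lg^[e + 2 * j] g').coeff 1 ≠ 0 := by
  intro J
  induction J with
  | zero =>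
    intro hJ
    set F : ℝ → ℝ[X] := fun ε => g + C ε * X ^ (1 + 2 * e) with hF
    have hP : Per F g (1 + 2 * e) 1 := per_base g (1 + 2 * e)
    have hPi : ∀ i ≤ e, ∃ κ' : ℝ, κ' ≠ 0 ∧
        Per (fun ε => Lg^[i] (F ε)) (Lg^[i] g) (1 + 2 * (e - i)) κ' := by
      intro i hi
      refine per_iter_one i (1 + 2 * (e - i)) one_ne_zero ?_ (fun k hk => hne k (by omega))
      rwa [show 1 + 2 * (e - i) + 2 * i = 1 + 2 * e by omega]
    obtain ⟨κ, hκ, hPe⟩ := hPi e le_rfl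
    rw [Nat.sub_self, mul_zero, add_zero] at hPe
    obtain ⟨δ, hδ, hopen⟩ := hop M g (X ^ (1 + 2 * e)) hA
    obtain ⟨ε, hε, hc⟩ := exists_eps (c := (Lg^[e] g).coeff 1) hκ hδ
    refine ⟨F ε, ?_, hopen ε hε, ?_, ?_, ?_⟩
    · refine (natDegree_add_le _ _).trans (max_le hM ((natDegree_C_mul_X_pow_le _ _).trans ?_))
      omega
    · intro i hi
      obtain ⟨κ', -, h'⟩ := hPi i hi.le
      have := per_coeff_lt h' (i := 0) (by omega) ε
      rw [this]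
      exact hne i hi
    · rw [per_coeff_lt hPe (i := 0) (by omega) ε]
      exact h0
    · intro j hj
      obtain rfl : j = 0 := by omega
      rw [mul_zero, add_zero, per_coeff_self hPe ε]
      exact hc
  | succ J ih =>
    intro hJ
    obtain ⟨g, hM, hA, hne, h0, h1⟩ := ih (by omega)
    set F : ℝ → ℝ[X] := fun ε => g + C ε * X ^ (1 + 3 * (J + 1) + 2 * e) with hF
    have hP : Per F g (1 + 3 * (J + 1) + 2 * e) 1 := per_base g _
    have hPi : ∀ i ≤ e, ∃ κ' : ℝ, κ' ≠ 0 ∧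
        Per (fun ε => Lg^[i] (F ε)) (Lg^[i] g) (1 + 3 * (J + 1) + 2 * (e - i)) κ' := by
      intro i hi
      refine per_iter_one i _ one_ne_zero ?_ (fun k hk => hne k (by omega))
      rwa [show 1 + 3 * (J + 1) + 2 * (e - i) + 2 * i = 1 + 3 * (J + 1) + 2 * e by omega]
    obtain ⟨κe, hκe, hPe⟩ := hPi e le_rfl
    rw [Nat.sub_self, mul_zero, add_zero] at hPe
    have hPj : ∀ j ≤ J + 1, ∃ κ' : ℝ, κ' ≠ 0 ∧
        Per (fun ε => Lg^[2 * j] (Lg^[e] (F ε))) (Lg^[2 * j] (Lg^[e] g))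
          (3 * (J + 1 - j) + 1) κ' := by
      intro j hj
      refine per_iter_two j (3 * (J + 1 - j)) hκe ?_ ?_
      · rwa [show 3 * (J + 1 - j) + 1 + 3 * j = 1 + 3 * (J + 1) by omega]
      · intro i hi
        rw [← level_comp]
        exact ⟨coeff_zero_level e h0 i, h1 i (by omega)⟩
    obtain ⟨κ, hκ, hPJ⟩ := hPj (J + 1) le_rfl
    rw [Nat.sub_self, mul_zero, zero_add] at hPJ
    obtain ⟨δ, hδ, hopen⟩ := hop M g (X ^ (1 + 3 * (J + 1) + 2 * e)) hA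
    obtain ⟨ε, hε, hc⟩ := exists_eps (c := (Lg^[2 * (J + 1)] (Lg^[e] g)).coeff 1) hκ hδ
    refine ⟨F ε, ?_, hopen ε hε, ?_, ?_, ?_⟩
    · refine (natDegree_add_le _ _).trans (max_le hM ((natDegree_C_mul_X_pow_le _ _).trans ?_))
      omega
    · intro i hi
      obtain ⟨κ', -, h'⟩ := hPi i hi.le
      have := per_coeff_lt h' (i := 0) (by omega) ε
      rw [this]
      exact hne i hi
    · rw [per_coeff_lt hPe (i := 0) (by omega) ε]
      exact h0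
    · intro j hj
      rw [level_comp]
      rcases Nat.lt_or_ge j (J + 1) with hlt | hge
      · obtain ⟨κ', -, h'⟩ := hPj j hj
        have := per_coeff_lt h' (i := 1) (by omega) ε
        rw [this, ← level_comp]
        exact h1 j (by omega)
      · obtain rfl : j = J + 1 := by omega
        have := per_coeff_self hPJ ε
        rw [this]
        exact hc

/-- All levels from the base. -/
theorem all_levels (hop : S_OPEN) (hroots : S_ROOTS) (hshift : S_SHIFT) (e : ℕ) (he : 1 ≤ e)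
    (hb : BaseStm e) (J : ℕ) : NegStm (e - 1 + 2 * J) := by
  obtain ⟨M0, hM0⟩ := hb
  obtain ⟨g, hM, hA, hne, h0⟩ := hM0 (max M0 (2 * e + 1 + 3 * J)) (le_max_left _ _)
  obtain ⟨g', hM', hA', -, h0', h1'⟩ := step hop e _ g hM hA hne h0 J (le_max_right _ _)
  have hr := hroots _ g' ((by omega : 1 ≤ 2 * e + 1 + 3 * J).trans (le_max_right _ _)) hM' hA'
  have hlev : e - 1 + 2 * J + 1 = e + 2 * J := by omega
  refine hshift _ g' hr ?_ ?_
  · rw [hlev]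
    exact coeff_zero_level e h0' J
  · rw [hlev]
    exact h1' J le_rfl

end Pool.Agent.Y246.LG
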