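import Pool.Agent.Y246.LG.Psi2
import Pool.Agent.Y246.LG.Step
import Pool.Agent.Y555.LG.Roots
import Pool.Agent.Y555.LG.Prod
import Pool.Agent.Y908.LG.Num4
import Pool.Agent.Y908.LG.Num5
import Pool.Agent.Y908.LG.Shift
import Pool.Agent.Y908.LG.Poly
import Pool.Agent.Y458.LG.Def
import Pool.Agent.Y689.LG.Disc
import Pool.Agent.Y532.LG.Real

/-!
# Assembly (helper246)
-/

set_option autoImplicit false

namespace Pool.Agent.Y246.LG

open Polynomial

theorem base_four : BaseStm 4 :=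
  Pool.Agent.Y458.LG.t Pool.Agent.Y555.LG.Prod.t 100 9 0 60 4 (by norm_num) (by norm_num) le_rfl
    zero_le_one (fun v h0 h1 => ⟨by linarith, by linarith⟩) Pool.Agent.Y908.LG.NUM4.t

theorem base_five : BaseStm 5 :=
  Pool.Agent.Y458.LG.t Pool.Agent.Y555.LG.Prod.t 12 12 1 50 5 (by norm_num) (by norm_num) zero_le_one
    le_rfl (fun v h0 h1 => ⟨by linarith, by linarith⟩) Pool.Agent.Y908.LG.NUM5.t

theorem negStm (n : ℕ) (hn : 3 ≤ n) : NegStm n := by
  rcases Nat.even_or_odd n with h | h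
  · obtain ⟨m, hm⟩ := h
    have := all_levels Pool.Agent.Y555.LG.Roots.t_open Pool.Agent.Y555.LG.Roots.t_roots
      Pool.Agent.Y908.LG.SHIFT.t 5 (by norm_num) base_five (m - 2)
    rwa [show 5 - 1 + 2 * (m - 2) = n by omega] at this
  · obtain ⟨m, hm⟩ := h
    have := all_levels Pool.Agent.Y555.LG.Roots.t_open Pool.Agent.Y555.LG.Roots.t_roots
      Pool.Agent.Y908.LG.SHIFT.t 4 (by norm_num) base_four (m - 1)
    rwa [show 4 - 1 + 2 * (m - 1) = n by omega] at this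

/-- Polynomials with negative zeros violating the inequality, for all `n ≥ 3` and all `k`. -/
theorem exists_poly (n k : ℕ) (hn : 3 ≤ n) (hk : n + 1 ≤ k) :
    ∃ P : ℝ[X], NegRoots P ∧ LT n (fun j => (j.factorial : ℝ) * P.coeff j) k < 0 := by
  obtain ⟨g, t, hg, ht, hneg⟩ := negStm n hn
  obtain ⟨k₀, hk₀⟩ := Pool.Agent.Y689.LG.t n g t ht hneg
  refine allK ⟨k₀, fun k hk => ?_⟩ k hk
  obtain ⟨h, hh, h1⟩ := hk₀ k hk
  exact Pool.Agent.Y908.LG.POLY.t n k g h hg hh h1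

theorem iter_zero (Q : ℝ[X]) (j : ℕ) :
    (iteratedDeriv j (fun z : ℂ => aeval z Q) 0).re = (j.factorial : ℝ) * Q.coeff j := by
  have hev : (fun z : ℂ => aeval z Q) = fun z => (Q.map (algebraMap ℝ ℂ)).eval z := by
    funext z
    rw [eval_map_algebraMap]
  rw [hev, iteratedDeriv_poly, ← coeff_zero_eq_eval_zero, iterate_derivative_map, coeff_map,
    coeff_iterate_derivative, Nat.zero_add, Nat.descFactorial_self, nsmul_eq_mul]
  exact Complex.ofReal_re _

theorem negRoots_comp {P : ℝ[X]} (hP : NegRoots P) {R : ℝ} (hR : 0 < R) :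
    NegRoots (P.comp (C R * X)) := by
  have h2 : ∀ z : ℂ, aeval z (P.comp (C R * X)) = aeval ((R : ℂ) * z) P := by
    intro z
    rw [aeval_comp]
    simp
  refine ⟨fun h0 => ?_, fun z hz => ?_⟩
  · have : ∀ z : ℂ, aeval ((R : ℂ) * z) P = 0 := fun z => by rw [← h2, h0, map_zero]
    have h3 := hP.2 _ (this 0)
    rw [mul_zero] at h3
    exact lt_irrefl _ h3.2
  · rw [h2] at hz
    obtain ⟨h1, h3⟩ := hP.2 _ hz
    rw [Complex.im_ofReal_mul] at h1
    rw [Complex.re_ofReal_mul] at h3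
    exact ⟨(mul_eq_zero.1 h1).resolve_left hR.ne', by nlinarith⟩

theorem negRoots_pow (m : ℕ) : NegRoots ((X + 1) ^ m : ℝ[X]) := by
  refine ⟨pow_ne_zero _ (by rw [← C_1]; exact X_add_C_ne_zero 1), fun z hz => ?_⟩
  have h1 : (z + 1) ^ m = 0 := by simpa using hz
  have h2 : z + 1 = 0 := by
    rcases Nat.eq_zero_or_pos m with rfl | hm
    · simp at h1
    · exact (pow_eq_zero_iff hm.ne').1 h1
  have h3 : z = -1 := by linear_combination h2
  rw [h3]
  constructor <;> norm_num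

/-- The general construction. -/
theorem main (n k : ℕ) (hn : 1 ≤ n) (hk : n + 1 ≤ k) (ψ : ℂ → ℂ) (hψ : InClass ψ) :
    ∃ (c : ℝ) (Q : ℝ[X]), 0 ≤ c ∧ (3 ≤ n → c = 0) ∧ NegRoots Q ∧
      InClass (fun z => ψ z * (Complex.exp (-(c : ℂ) * z) * aeval z Q)) ∧
      ∃ b : ℝ, 0 < b ∧ ∀ x : ℝ, 0 ≤ x → x ≤ b →
        laguerreT (fun y : ℝ => (ψ y * (Complex.exp (-(c : ℂ) * y) * aeval (y : ℂ) Q)).re) n k x < 0 := by
  have key : ∃ (c : ℝ) (P : ℝ[X]), 0 ≤ c ∧ (3 ≤ n → c = 0) ∧ NegRoots P ∧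
      LT n (fun j => (iteratedDeriv j (fun z : ℂ => Complex.exp (-(c : ℂ) * z) * aeval z P) 0).re) k
        < 0 := by
    rcases Nat.lt_or_ge n 3 with h3 | h3
    · obtain rfl | rfl : n = 1 ∨ n = 2 := by omega
      · exact ⟨(k : ℝ), (X + 1) ^ 2, Nat.cast_nonneg k, fun h => absurd h (by norm_num),
          negRoots_pow 2, expl_one k hk⟩
      · exact ⟨((k - 1 : ℕ) : ℝ), (X + 1) ^ 3, Nat.cast_nonneg _, fun h => absurd h (by norm_num),
          negRoots_pow 3, expl_two k hk⟩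
    · obtain ⟨P, hP, hneg⟩ := exists_poly n k h3 hk
      refine ⟨0, P, le_rfl, fun _ => rfl, hP, ?_⟩
      have e : (fun z : ℂ => Complex.exp (-((0 : ℝ) : ℂ) * z) * aeval z P) =
          fun z : ℂ => aeval z P := by
        funext z
        simp
      rw [e, LT_congr n k _ _ (iter_zero P)]
      exact hneg
  obtain ⟨c, P, hc, hcn, hP, hneg⟩ := key
  have hΦ : InClass (fun z : ℂ => Complex.exp (-(c : ℂ) * z) * aeval z P) :=
    (inClass_exp c).mul (inClass_poly hP)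
  have hψ0 : ψ 0 ≠ 0 := by
    intro h0
    exact lt_irrefl _ (hψ.2.2.2 0 h0).2
  obtain ⟨R, hR, hneg'⟩ := t_psi2 n k ψ _ hk hψ.1 hΦ.1 hψ.2.1 hΦ.2.1 hψ0 hneg
  have hfun : (fun z : ℂ => ψ z * (Complex.exp (-(c : ℂ) * (R * z)) * aeval ((R : ℂ) * z) P)) =
      fun z : ℂ => ψ z * (Complex.exp (-((c * R : ℝ) : ℂ) * z) * aeval z (P.comp (C R * X))) := by
    funext z
    have h2 : aeval z (P.comp (C R * X)) = aeval ((R : ℂ) * z) P := by
      rw [aeval_comp]
      simp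
    rw [h2]
    congr 3
    push_cast
    ring
  have hcl : InClass (fun z : ℂ =>
      ψ z * (Complex.exp (-((c * R : ℝ) : ℂ) * z) * aeval z (P.comp (C R * X)))) := by
    rw [← hfun]
    exact hψ.mul (hΦ.dil hR)
  rw [hfun] at hneg'
  refine ⟨c * R, P.comp (C R * X), by positivity, fun h => by rw [hcn h, zero_mul],
    negRoots_comp hP hR, hcl, ?_⟩
  exact Pool.Agent.Y532.LG.t_near _ hcl.1 n k hneg'

end Pool.Agent.Y246.LG
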