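import Pool.Agent.Y246.LG.Ident
import Pool.Agent.Y246.LG.AllK

/-!
# Positivity at the levels zero, one and two (helper246)
-/

set_option autoImplicit false

namespace Pool.Agent.Y246.LG

open Finset

theorem aug_congr {ι : Type} [DecidableEq ι] (a : ι → ℝ) (c : ℕ) {l l' : List ℕ}
    (h : ∀ s, aug a l s = aug a l' s) (s : Finset ι) : aug a (c :: l) s = aug a (c :: l') s := by
  rw [aug_cons, aug_cons]
  exact Finset.sum_congr rfl fun x _ => by rw [h]

theorem aug_four {ι : Type} [DecidableEq ι] {a : ι → ℝ} (ha : ∀ i, 0 ≤ a i) (s : Finset ι) :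
    aug a [3, 3, 3, 3] s ≤ aug a [4, 3, 3, 2] s := by
  have e1 : aug a [4, 3, 3, 2] s = aug a [4, 2, 3, 3] s := by
    refine aug_congr a 4 (fun s => ?_) s
    rw [aug_congr a 3 (fun s => aug_swap a 3 2 [] s) s, aug_swap]
  have e2 : aug a [4, 2, 3, 3] s = aug a [2, 4, 3, 3] s := aug_swap a 4 2 [3, 3] s
  have h : 2 * aug a [3, 3, 3, 3] s ≤ aug a [4, 2, 3, 3] s + aug a [2, 4, 3, 3] s := by
    rw [aug_cons a 3, aug_cons a 4, aug_cons a 2, Finset.mul_sum, ← Finset.sum_add_distrib]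
    refine Finset.sum_le_sum fun x _ => ?_
    rw [aug_cons a 3, aug_cons a 2, aug_cons a 4, Finset.mul_sum, Finset.mul_sum, Finset.mul_sum,
      Finset.mul_sum, ← Finset.sum_add_distrib]
    refine Finset.sum_le_sum fun y _ => ?_
    have hx := ha x
    have hy := ha y
    have h1 := aug_nonneg ha [3, 3] ((s.erase x).erase y)
    have h2 : 0 ≤ (a x) ^ 2 * (a y) ^ 2 * (a x - a y) ^ 2 * aug a [3, 3] ((s.erase x).erase y) := by
      positivity
    nlinarith [h2]
  linarith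

theorem key_ineq {A D Q V g2 g3 g4 : ℝ} (hg2 : 0 ≤ g2) (hg4 : 0 ≤ g4) (hg3 : 0 ≤ g3)
    (hA : 0 ≤ A) (hD : g3 ^ 2 - g2 * g4 = D) (hD0 : 0 ≤ D)
    (h : ∀ τ : ℝ, 0 ≤ τ → 0 ≤ D * τ ^ 2 + 2 * Q * τ + V) :
    0 ≤ (2 * g3 * A + Q) ^ 2 + g2 * g4 * (V - 4 * A ^ 2) := by
  have hV : 0 ≤ V := by simpa using h 0 le_rfl
  have e : (2 * g3 * A + Q) ^ 2 + g2 * g4 * (V - 4 * A ^ 2) =
      4 * D * A ^ 2 + 4 * g3 * Q * A + Q ^ 2 + g2 * g4 * V := by
    rw [← hD]
    ring
  rw [e]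
  have hgg : 0 ≤ g2 * g4 := mul_nonneg hg2 hg4
  rcases le_or_gt 0 Q with hQ | hQ
  · positivity
  · rcases hD0.eq_or_lt with h0 | h0
    · exfalso
      have h1 := h ((V + 1) / (-2 * Q)) (by
        have : 0 < -2 * Q := by linarith
        positivity)
      rw [← h0] at h1
      have hQ' : Q ≠ 0 := hQ.ne
      have h2 : 2 * Q * ((V + 1) / (-2 * Q)) = -(V + 1) := by
        field_simp
      rw [zero_mul, zero_add, h2] at h1
      linarith
    · have h1 := h (-Q / D) (div_nonneg (by linarith) hD0)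
      have h2 : D * (-Q / D) ^ 2 + 2 * Q * (-Q / D) + V = (D * V - Q ^ 2) / D := by
        field_simp
        ring
      rw [h2] at h1
      have h3 : 0 ≤ D * V - Q ^ 2 := by
        by_contra hc
        rw [not_le] at hc
        exact absurd h1 (not_le.2 (div_neg_of_neg_of_pos hc h0))
      have h4 : D * (4 * D * A ^ 2 + 4 * g3 * Q * A + Q ^ 2 + g2 * g4 * V) =
          (2 * D * A + g3 * Q) ^ 2 + g2 * g4 * (D * V - Q ^ 2) := by
        have : g3 ^ 2 = D + g2 * g4 := by rw [← hD]; ring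
        linear_combination (-(Q ^ 2)) * this
      have h5 : 0 ≤ D * (4 * D * A ^ 2 + 4 * g3 * Q * A + Q ^ 2 + g2 * g4 * V) := by
        rw [h4]
        have := mul_nonneg hgg h3
        positivity
      by_contra hc
      rw [not_le] at hc
      exact absurd h5 (not_le.2 (mul_neg_of_pos_of_neg h0 hc))

theorem level_two (hF : S_FIVE) {ι : Type} [DecidableEq ι] {a : ι → ℝ} (ha : ∀ i, 0 ≤ a i)
    (s : Finset ι) : 0 ≤ LT 2 (fun j => aug a (List.replicate j 1) s) 3 := by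
  have hn := fun l => aug_nonneg ha l s
  have e : LT 2 (fun j => aug a (List.replicate j 1) s) 3 =
      (6 * aug a [2, 2, 2] s + 6 * aug a [2, 2, 1, 1] s + aug a [2, 1, 1, 1, 1] s) *
      ((2 * aug a [1, 1, 1] s * aug a [2, 2, 2] s +
      (24 * aug a [3, 3, 3] s + 24 * aug a [3, 2, 2, 2] s + 4 * aug a [3, 3, 1, 1, 1] s
        - 12 * aug a [3, 2, 2, 1, 1] s + 12 * aug a [2, 2, 2, 2, 1] s)) ^ 2 +
      aug a [1, 1] s * aug a [1, 1, 1, 1] s *
      ((16 * aug a [2, 2, 2, 2, 2, 2] s + 72 * aug a [4, 2, 2, 2, 2] s + 240 * aug a [4, 4, 4] s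
      + 576 * aug a [4, 3, 3, 2] s - 144 * aug a [3, 3, 3, 3] s + 96 * aug a [3, 3, 2, 2, 2] s)
      - 4 * aug a [2, 2, 2] s ^ 2)) := by
    rw [← idD2, ← idD3, ← idD4, ← T2_ring]
    simp only [LT, List.replicate]
    norm_num [aug_nil]
  rw [e]
  refine mul_nonneg ?_ ?_
  · have h1 := hn [2, 2, 2]
    have h2 := hn [2, 2, 1, 1]
    have h3 := hn [2, 1, 1, 1, 1]
    linarith
  · refine key_ineq (hn _) (hn _) (hn _) (hn _) (idD2 a s) ?_ (fun τ hτ => ?_)
    · have h1 := hn [2, 2, 2]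
      have h2 := hn [2, 2, 1, 1]
      have h3 := hn [2, 1, 1, 1, 1]
      linarith
    · have h5 := hF ι a s τ ha hτ
      have h4 := aug_four ha s
      have p1 := mul_nonneg (sq_nonneg τ) (hn [2, 2, 2])
      have p2 := mul_nonneg (sq_nonneg τ) (hn [2, 2, 1, 1])
      have p3 := mul_nonneg hτ (hn [3, 2, 2, 2])
      have p4 := mul_nonneg hτ (hn [3, 3, 3])
      have p5 := hn [4, 4, 4]
      have p6 := hn [2, 2, 2, 2, 2, 2]
      have p7 := hn [4, 3, 3, 2]
      nlinarith [h5, h4, p1, p2, p3, p4, p5, p6, p7]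

theorem level_one {ι : Type} [DecidableEq ι] {a : ι → ℝ} (ha : ∀ i, 0 ≤ a i)
    (s : Finset ι) : 0 ≤ LT 1 (fun j => aug a (List.replicate j 1) s) 2 := by
  have hn := fun l => aug_nonneg ha l s
  have e : LT 1 (fun j => aug a (List.replicate j 1) s) 2 =
      aug a [1, 1] s * (2 * aug a [2, 2, 2] s + 4 * aug a [3, 3] s) := by
    rw [← idD32]
    simp only [LT, List.replicate]
    norm_num [aug_nil]
    ring
  rw [e]
  have h1 := hn [2, 2, 2]
  have h2 := hn [3, 3]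
  exact mul_nonneg (hn _) (by linarith)

theorem level_zero {ι : Type} [DecidableEq ι] {a : ι → ℝ} (ha : ∀ i, 0 ≤ a i)
    (s : Finset ι) : 0 ≤ LT 0 (fun j => aug a (List.replicate j 1) s) 1 := by
  have hn := fun l => aug_nonneg ha l s
  have e : LT 0 (fun j => aug a (List.replicate j 1) s) 1 = aug a [2] s := by
    simp only [LT, List.replicate]
    norm_num [aug_nil]
    rw [g2]
    ring
  rw [e]
  exact hn _

theorem levels (hF : S_FIVE) {ι : Type} [DecidableEq ι] {a : ι → ℝ} (ha : ∀ i, 0 ≤ a i)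
    (s : Finset ι) (n : ℕ) (hn : n ≤ 2) :
    0 ≤ LT n (fun j => aug a (List.replicate j 1) s) (n + 1) := by
  obtain rfl | rfl | rfl : n = 0 ∨ n = 1 ∨ n = 2 := by omega
  · exact level_zero ha s
  · exact level_one ha s
  · exact level_two hF ha s

/-- Level `n ≤ 2` at `0`. -/
theorem levels_at_zero (hF : S_FIVE) (hfact : S_FACT) (hcoef : S_COEF) (n : ℕ) (hn : n ≤ 2)
    (P : Polynomial ℝ) (hP : NegRoots P) :
    0 ≤ LT n (fun j => (j.factorial : ℝ) * P.coeff j) (n + 1) := by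
  obtain ⟨m, a, ha, h0, hfac⟩ := hfact P hP
  have h1 : ∀ j, (j.factorial : ℝ) * P.coeff j =
      P.coeff 0 * 1 ^ j * aug a (List.replicate j 1) Finset.univ := by
    intro j
    rw [← hcoef m a j]
    conv_lhs => rw [hfac, Polynomial.coeff_C_mul]
    ring
  rw [LT_congr n _ _ _ h1, LT_homog _ _ _ n (n + 1) le_rfl, one_pow, one_pow, mul_one]
  refine mul_nonneg ?_ (levels hF ha _ n hn)
  have : Even (2 ^ (n + 1)) := by
    rw [pow_succ]
    exact even_two.mul_left _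
  exact this.pow_nonneg _

end Pool.Agent.Y246.LG
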