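import Pool.Agent.Y246.LG.AllK
import Pool.Agent.Y908.LG.Lim

/-!
# Multiplication with an entire function: the version for entire functions
(helper246, after helper908's file `Y908/LG/Psi.lean`)
-/

set_option autoImplicit false

namespace Pool.Agent.Y246.LG

open Polynomial Finset Filter Topology

theorem realT {φ : ℂ → ℂ} (h : RealTaylor φ) (i : ℕ) :
    iteratedDeriv i φ 0 = (((iteratedDeriv i φ 0).re : ℝ) : ℂ) := by
  apply Complex.ext
  · simp
  · rw [h i]; simp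

theorem psi_formula (ψ Φ : ℂ → ℂ) (hψ : Differentiable ℂ ψ) (hΦ : Differentiable ℂ Φ)
    (hr : RealTaylor ψ) (hr' : RealTaylor Φ) (R : ℝ)
    (hR : 0 < R) (j : ℕ) :
    (iteratedDeriv j (fun z : ℂ => ψ z * Φ (R * z)) 0).re =
      1 * R ^ j * ∑ i ∈ range (j + 1), ((j.choose i : ℝ) * (iteratedDeriv i ψ 0).re *
        (iteratedDeriv (j - i) Φ 0).re) * (1 / R) ^ i := by
  have hc1 : ContDiffAt ℂ j ψ 0 := (hψ.contDiff).contDiffAt
  have hd2 : Differentiable ℂ (fun z : ℂ => Φ (R * z)) :=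
    hΦ.comp (differentiable_id.const_mul (R : ℂ))
  have hc2 : ContDiffAt ℂ j (fun z : ℂ => Φ (R * z)) 0 := hd2.contDiff.contDiffAt
  have h1 := iteratedDeriv_fun_mul hc1 hc2
  rw [h1, Complex.re_sum, one_mul, mul_sum]
  apply sum_congr rfl
  intro i hi
  rw [mem_range] at hi
  rw [iteratedDeriv_comp_const_mul hΦ.contDiff]
  simp only [mul_zero]
  rw [realT hr i, realT hr' (j - i)]
  have e : ((j.choose i : ℂ) * (((iteratedDeriv i ψ 0).re : ℝ) : ℂ) *
      ((R : ℂ) ^ (j - i) * (((iteratedDeriv (j - i) Φ 0).re : ℝ) : ℂ))) =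
      (((j.choose i : ℝ) * (iteratedDeriv i ψ 0).re *
        (R ^ (j - i) * (iteratedDeriv (j - i) Φ 0).re) : ℝ) : ℂ) := by
    push_cast; ring
  rw [e, Complex.ofReal_re, Complex.ofReal_re, Complex.ofReal_re]
  have e2 : R ^ j * (1 / R) ^ i = R ^ (j - i) := by
    have : R ^ j = R ^ (j - i) * R ^ i := by rw [← pow_add]; congr 1; omega
    rw [this, mul_assoc, ← mul_pow, mul_one_div_cancel hR.ne', one_pow, mul_one]
  rw [← e2]
  ring

theorem t_psi2 : S_PSI2 := by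
  intro n k ψ Φ hk hψ hΦ hr hr' h0 hneg
  obtain ⟨a, ha⟩ : ∃ a : ℝ, a = (ψ 0).re := ⟨_, rfl⟩
  have ha0 : a ≠ 0 := by
    intro h
    apply h0
    have h1 := hr 0
    rw [iteratedDeriv_zero] at h1
    apply Complex.ext
    · rw [← ha, h]; simp
    · rw [h1]; simp
  have hlim : ∀ j : ℕ, Tendsto (fun R : ℝ => ∑ i ∈ range (j + 1),
      ((j.choose i : ℝ) * (iteratedDeriv i ψ 0).re *
        (iteratedDeriv (j - i) Φ 0).re) * (1 / R) ^ i) atTop
      (𝓝 (a * 1 ^ j * (iteratedDeriv j Φ 0).re)) := by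
    intro j
    have h1 : ∀ i ∈ range (j + 1), Tendsto (fun R : ℝ => ((j.choose i : ℝ) *
        (iteratedDeriv i ψ 0).re * (iteratedDeriv (j - i) Φ 0).re) * (1 / R) ^ i) atTop
        (𝓝 (if i = 0 then a * 1 ^ j * (iteratedDeriv j Φ 0).re else 0)) := by
      intro i _
      rcases Nat.eq_zero_or_pos i with rfl | hi
      · simp [ha, iteratedDeriv_zero]
      · rw [if_neg (by omega)]
        have h2 : Tendsto (fun R : ℝ => (1 / R) ^ i) atTop (𝓝 0) := by
          have h3 : Tendsto (fun R : ℝ => 1 / R) atTop (𝓝 0) := by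
            simpa using tendsto_inv_atTop_zero (𝕜 := ℝ)
          have := h3.pow i
          rwa [zero_pow (by omega)] at this
        have := h2.const_mul ((j.choose i : ℝ) *
          (iteratedDeriv i ψ 0).re * (iteratedDeriv (j - i) Φ 0).re)
        rwa [mul_zero] at this
    have h4 := tendsto_finsetSum (range (j + 1)) h1
    rw [Finset.sum_ite_eq' (range (j + 1)) 0, if_pos (by simp)] at h4
    exact h4
  have h1 := Pool.Agent.Y908.LG.LT_tendsto (l := atTop) (fun (R : ℝ) (j : ℕ) => ∑ i ∈ range (j + 1),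
      ((j.choose i : ℝ) * (iteratedDeriv i ψ 0).re *
        (iteratedDeriv (j - i) Φ 0).re) * (1 / R) ^ i) _ hlim n k
  rw [Pool.Agent.Y908.LG.LT_hom a 1 (fun j => (iteratedDeriv j Φ 0).re) n k hk] at h1
  have hpos : 0 < a ^ (2 ^ (n + 1)) := by
    have : Even (2 ^ (n + 1)) := by
      rw [pow_succ]
      exact even_two.mul_left _
    exact this.pow_pos ha0
  have hneg' : a ^ (2 ^ (n + 1)) * 1 ^ (k * 2 ^ (n + 1)) *
      LT n (fun j => (iteratedDeriv j Φ 0).re) k < 0 := by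
    rw [one_pow, mul_one]
    exact mul_neg_of_pos_of_neg hpos hneg
  have h2 := (h1.eventually (Iio_mem_nhds hneg')).and (eventually_gt_atTop (0:ℝ))
  obtain ⟨R, hR1, hR2⟩ := h2.exists
  refine ⟨R, hR2, ?_⟩
  have e : (fun j => (iteratedDeriv j (fun z : ℂ => ψ z * Φ (R * z)) 0).re) =
      fun j => 1 * R ^ j * ∑ i ∈ range (j + 1), ((j.choose i : ℝ) * (iteratedDeriv i ψ 0).re *
        (iteratedDeriv (j - i) Φ 0).re) * (1 / R) ^ i := by
    funext j
    exact psi_formula ψ Φ hψ hΦ hr hr' R hR2 j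
  rw [e, Pool.Agent.Y908.LG.LT_hom 1 R _ n k hk, one_pow, one_mul]
  exact mul_neg_of_pos_of_neg (by positivity) hR1

/-- The explicit example at level one: `(1 + z)^2 exp(-k z)`. -/
theorem expl_one (k : ℕ) (hk : 2 ≤ k) :
    LT 1 (fun j => (iteratedDeriv j (fun z : ℂ => Complex.exp (-((k : ℝ) : ℂ) * z) *
      aeval z ((X + 1) ^ 2 : ℝ[X])) 0).re) k < 0 := by
  obtain ⟨m, rfl⟩ : ∃ m, k = m + 2 := ⟨k - 2, by omega⟩
  set c : ℝ := ((m + 2 : ℕ) : ℝ) with hc
  have hc0 : (c : ℂ) ≠ 0 := by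
    rw [hc]
    exact_mod_cast (by omega : m + 2 ≠ 0)
  have hcr : c ≠ 0 := by exact_mod_cast hc0
  have hfun : (fun z : ℂ => Complex.exp (-(c : ℂ) * z) * aeval z ((X + 1) ^ 2 : ℝ[X])) =
      fun z : ℂ => Complex.exp (-(c : ℂ) * z) * ((X + 1) ^ 2 : ℂ[X]).eval z := by
    funext z
    simp
  have hval : ∀ j : ℕ, (iteratedDeriv j (fun z : ℂ => Complex.exp (-(c : ℂ) * z) *
      aeval z ((X + 1) ^ 2 : ℝ[X])) 0).re =
      (1 / c ^ 2) * (-c) ^ j * (c ^ 2 - 2 * j * c + j * (j - 1)) := by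
    intro j
    rw [hfun, iteratedDeriv_expmul]
    have := Ac_two (c : ℂ) hc0 j
    unfold Ac at this
    rw [this, mul_zero, Complex.exp_zero, one_mul]
    simp only [eval_mul, eval_add, eval_sub, eval_pow, eval_X, eval_one, eval_C, zero_add, one_pow,
      mul_one]
    have : (((-c) ^ j * (1 - 2 * j / c + j * (j - 1) / c ^ 2) : ℝ) : ℂ) =
        (-(c : ℂ)) ^ j * (1 - 2 * j / c + j * (j - 1) / c ^ 2) := by
      push_cast
      ring
    rw [← this, Complex.ofReal_re]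
    field_simp
  rw [LT_congr 1 _ _ _ hval, LT_homog _ _ _ 1 (m + 2) (by omega)]
  have h2 : LT 1 (fun j : ℕ => c ^ 2 - 2 * j * c + j * (j - 1)) (m + 2) = -8 * (m + 2) := by
    simp only [LT, show m + 2 - 1 = m + 1 from rfl, show m + 1 - 1 = m from rfl,
      show m + 2 + 1 - 1 = m + 2 from rfl]
    rw [hc]
    push_cast
    ring
  rw [h2]
  have h3 : (0 : ℝ) < (1 / c ^ 2) ^ 2 ^ (1 + 1) * ((-c) ^ (m + 2)) ^ 2 ^ (1 + 1) := by
    have e1 : ((-c) ^ (m + 2)) ^ 2 ^ (1 + 1) = (c ^ (m + 2)) ^ 4 := by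
      rw [← pow_mul, ← pow_mul]
      exact Even.neg_pow (Even.mul_left (by decide : Even 4) (m + 2)) c
    rw [e1]
    positivity
  refine mul_neg_of_pos_of_neg h3 ?_
  have : (0 : ℝ) ≤ m := Nat.cast_nonneg m
  linarith

/-- The explicit example at level two: `(1 + z)^3 exp(-(k-1) z)`. -/
theorem expl_two (k : ℕ) (hk : 3 ≤ k) :
    LT 2 (fun j => (iteratedDeriv j (fun z : ℂ => Complex.exp (-(((k - 1 : ℕ) : ℝ) : ℂ) * z) *
      aeval z ((X + 1) ^ 3 : ℝ[X])) 0).re) k < 0 := by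
  obtain ⟨m, rfl⟩ : ∃ m, k = m + 3 := ⟨k - 3, by omega⟩
  rw [show m + 3 - 1 = m + 2 from rfl]
  set c : ℝ := ((m + 2 : ℕ) : ℝ) with hc
  have hc0 : (c : ℂ) ≠ 0 := by
    rw [hc]
    exact_mod_cast (by omega : m + 2 ≠ 0)
  have hcr : c ≠ 0 := by exact_mod_cast hc0
  have hfun : (fun z : ℂ => Complex.exp (-(c : ℂ) * z) * aeval z ((X + 1) ^ 3 : ℝ[X])) =
      fun z : ℂ => Complex.exp (-(c : ℂ) * z) * ((X + 1) ^ 3 : ℂ[X]).eval z := by
    funext z
    simp
  have hval : ∀ j : ℕ, (iteratedDeriv j (fun z : ℂ => Complex.exp (-(c : ℂ) * z) *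
      aeval z ((X + 1) ^ 3 : ℝ[X])) 0).re =
      (1 / c ^ 3) * (-c) ^ j * (c ^ 3 - 3 * j * c ^ 2 + 3 * j * (j - 1) * c -
        j * (j - 1) * (j - 2)) := by
    intro j
    rw [hfun, iteratedDeriv_expmul]
    have := Ac_three (c : ℂ) hc0 j
    unfold Ac at this
    rw [this, mul_zero, Complex.exp_zero, one_mul]
    simp only [eval_mul, eval_add, eval_sub, eval_pow, eval_X, eval_one, eval_C, zero_add, one_pow,
      mul_one]
    have : (((-c) ^ j * (1 - 3 * j / c + 3 * (j * (j - 1)) / c ^ 2 -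
        j * (j - 1) * (j - 2) / c ^ 3) : ℝ) : ℂ) =
        (-(c : ℂ)) ^ j * (1 - 3 * j / c + 3 * (j * (j - 1)) / c ^ 2 -
        j * (j - 1) * (j - 2) / c ^ 3) := by
      push_cast
      ring
    rw [← this, Complex.ofReal_re]
    field_simp
  rw [LT_congr 2 _ _ _ hval, LT_homog _ _ _ 2 (m + 3) (by omega)]
  have h2 : LT 2 (fun j : ℕ => c ^ 3 - 3 * j * c ^ 2 + 3 * j * (j - 1) * c -
        j * (j - 1) * (j - 2)) (m + 3) = -81648 * (m + 2) ^ 4 := by
    simp only [LT, show m + 3 - 1 = m + 2 from rfl, show m + 2 - 1 = m + 1 from rfl,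
      show m + 1 - 1 = m from rfl, show m + 3 + 1 - 1 = m + 3 from rfl,
      show m + 3 + 1 + 1 - 1 = m + 3 + 1 from rfl]
    rw [hc]
    push_cast
    ring
  rw [h2]
  have h3 : (0 : ℝ) < (1 / c ^ 3) ^ 2 ^ (2 + 1) * ((-c) ^ (m + 3)) ^ 2 ^ (2 + 1) := by
    have e1 : ((-c) ^ (m + 3)) ^ 2 ^ (2 + 1) = (c ^ (m + 3)) ^ 8 := by
      rw [← pow_mul, ← pow_mul]
      exact Even.neg_pow (Even.mul_left (by decide : Even 8) (m + 3)) c
    rw [e1]
    have : 0 < c := by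
      rw [hc]
      positivity
    positivity
  refine mul_neg_of_pos_of_neg h3 ?_
  have : (0 : ℝ) ≤ m := Nat.cast_nonneg m
  have h5 : (0 : ℝ) < (m + 2) ^ 4 := by positivity
  linarith

end Pool.Agent.Y246.LG
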