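import Pool.Agent.Y246.LG.Cont

/-!
# Statements for project LG (helper246): iterated Laguerre inequalities fail at every level >= 3
-/

set_option autoImplicit false

namespace Pool.Agent.Y246.LG

open Polynomial

/-- All complex zeros of `p` are real and negative. -/
def NegRoots (p : ℝ[X]) : Prop := p ≠ 0 ∧ ∀ z : ℂ, aeval z p = 0 → z.im = 0 ∧ z.re < 0

/-- `p` has `M` sign changes on the negative half line. -/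
def Alt (M : ℕ) (p : ℝ[X]) : Prop :=
  ∃ y : ℕ → ℝ, (∀ i < M, y i < y (i + 1)) ∧ y M ≤ 0 ∧ ∀ i < M, p.eval (y i) * p.eval (y (i + 1)) < 0

/-- The iterated Turan operator on sequences. -/
def LT : ℕ → (ℕ → ℝ) → ℕ → ℝ
  | 0, γ, k => γ k ^ 2 - γ (k - 1) * γ (k + 1)
  | n + 1, γ, k => LT n γ k ^ 2 - LT n γ (k - 1) * LT n γ (k + 1)

/-- LG-ROOTS (part 1). -/
def S_ROOTS : Prop := ∀ (M : ℕ) (p : ℝ[X]), 1 ≤ M → p.natDegree ≤ M → Alt M p → NegRoots p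

/-- LG-ROOTS (part 2). -/
def S_OPEN : Prop := ∀ (M : ℕ) (g q : ℝ[X]), Alt M g →
  ∃ δ : ℝ, 0 < δ ∧ ∀ ε : ℝ, |ε| < δ → Alt M (g + C ε * q)

/-- LG-PROD. -/
def S_PROD : Prop := ∀ (M : ℕ) (a b : ℕ → ℝ), (∀ j < M, 0 < a j ∧ 0 < b j) →
  (∀ j, j + 1 < M → b j * a (j + 1) < b (j + 1) * a j) →
  Alt M (∏ j ∈ Finset.range M, (C (a j) * X + C (b j)))

/-- The base family. -/
noncomputable def gv (q c d : ℝ) (N : ℕ) (v : ℝ) : ℝ[X] :=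
  (C q * X + C (1 + v)) * (C c * X + C (1 + d * v)) * (X + 1) ^ N

/-- The numerical facts for the level `e`. -/
def NumFacts (q c d : ℝ) (N e : ℕ) : Prop :=
  (∀ v : ℝ, 0 ≤ v → v ≤ 1 → ∀ i < e, (Lg^[i] (gv q c d N v)).coeff 0 ≠ 0) ∧
  (Lg^[e] (gv q c d N 0)).coeff 0 < 0 ∧ 0 < (Lg^[e] (gv q c d N 1)).coeff 0

/-- LG-NUM4. -/
def S_NUM4 : Prop := NumFacts 100 9 0 60 4

/-- LG-NUM5. -/
def S_NUM5 : Prop := NumFacts 12 12 1 50 5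

/-- The base statement for `e`. -/
def BaseStm (e : ℕ) : Prop := ∃ M0 : ℕ, ∀ M : ℕ, M0 ≤ M → ∃ g : ℝ[X], g.natDegree ≤ M ∧ Alt M g ∧
  (∀ i < e, (Lg^[i] g).coeff 0 ≠ 0) ∧ (Lg^[e] g).coeff 0 = 0

/-- LG-DEF. -/
def S_DEF : Prop := S_PROD → ∀ (q c d : ℝ) (N e : ℕ), 0 < q → 0 < c → 0 ≤ d → d ≤ 1 →
  (∀ v : ℝ, 0 ≤ v → v ≤ 1 → (1 + v) * c ≤ (1 + d * v) * q ∧ 1 + d * v < c) →
  NumFacts q c d N e → BaseStm e

/-- The negative statement at level `n`. -/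
def NegStm (n : ℕ) : Prop := ∃ (g : ℝ[X]) (t : ℝ), NegRoots g ∧ 0 < t ∧ (Lg^[n + 1] g).eval t < 0

/-- LG-SHIFT. -/
def S_SHIFT : Prop := ∀ (n : ℕ) (g : ℝ[X]), NegRoots g → (Lg^[n + 1] g).coeff 0 = 0 →
  (Lg^[n + 1] g).coeff 1 ≠ 0 → NegStm n

/-- LG-DISC. -/
def S_DISC : Prop := ∀ (n : ℕ) (g : ℝ[X]) (t : ℝ), 0 < t → (Lg^[n + 1] g).eval t < 0 →
  ∃ k₀ : ℕ, ∀ k : ℕ, k₀ ≤ k → ∃ h : ℝ, 0 < h ∧
    LT n (fun j => ∑ l ∈ Finset.range (g.natDegree + 1), (j.descFactorial l : ℝ) * h ^ l * g.coeff l) k < 0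

/-- LG-POLY. -/
def S_POLY : Prop := ∀ (n k : ℕ) (g : ℝ[X]) (h : ℝ), NegRoots g → 0 < h →
  LT n (fun j => ∑ l ∈ Finset.range (g.natDegree + 1), (j.descFactorial l : ℝ) * h ^ l * g.coeff l) k < 0 →
  ∃ P : ℝ[X], NegRoots P ∧ LT n (fun j => (j.factorial : ℝ) * P.coeff j) k < 0

/-- The Taylor coefficients of `ψ` at `0` are real. -/
def RealTaylor (ψ : ℂ → ℂ) : Prop := ∀ j : ℕ, (iteratedDeriv j ψ 0).im = 0

/-- LG-PSI. -/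
def S_PSI : Prop := ∀ (n k : ℕ) (ψ : ℂ → ℂ) (P : ℝ[X]), n + 1 ≤ k → Differentiable ℂ ψ → RealTaylor ψ → ψ 0 ≠ 0 →
  LT n (fun j => (j.factorial : ℝ) * P.coeff j) k < 0 →
  ∃ R : ℝ, 0 < R ∧ LT n (fun j => (iteratedDeriv j (fun z : ℂ => ψ z * aeval z (P.comp (C R * X))) 0).re) k < 0

/-- The iterated Laguerre expression `T_k^{(n)}(φ(x))` (as in the starting file). -/
noncomputable def laguerreT (φ : ℝ → ℝ) : ℕ → ℕ → ℝ → ℝ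
  | 0, k, x => (iteratedDeriv k φ x) ^ 2 - iteratedDeriv (k - 1) φ x * iteratedDeriv (k + 1) φ x
  | n + 1, k, x => (laguerreT φ n k x) ^ 2 - laguerreT φ n (k - 1) x * laguerreT φ n (k + 1) x

/-- LG-REAL (part 1). -/
def S_REAL : Prop := ∀ (φ : ℂ → ℂ), Differentiable ℂ φ → ∀ (j : ℕ) (x : ℝ),
  iteratedDeriv j (fun y : ℝ => (φ y).re) x = (iteratedDeriv j φ (x : ℂ)).re

/-- LG-REAL (part 2). -/
def S_NEAR : Prop := ∀ (φ : ℂ → ℂ), Differentiable ℂ φ → ∀ (n k : ℕ),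
  LT n (fun j => (iteratedDeriv j φ 0).re) k < 0 →
  ∃ b : ℝ, 0 < b ∧ ∀ x : ℝ, 0 ≤ x → x ≤ b → laguerreT (fun y : ℝ => (φ y).re) n k x < 0

end Pool.Agent.Y246.LG
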