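import Pool.Agent.Y246.LG.Stm

/-!
# More statements for project LG (helper246)
-/

set_option autoImplicit false

namespace Pool.Agent.Y246.LG

open Polynomial

/-- LG-PSI2: the version of S_PSI with an entire function in place of the polynomial. -/
def S_PSI2 : Prop := ∀ (n k : ℕ) (ψ Φ : ℂ → ℂ), n + 1 ≤ k → Differentiable ℂ ψ → Differentiable ℂ Φ →
  RealTaylor ψ → RealTaylor Φ → ψ 0 ≠ 0 → LT n (fun j => (iteratedDeriv j Φ 0).re) k < 0 →
  ∃ R : ℝ, 0 < R ∧ LT n (fun j => (iteratedDeriv j (fun z : ℂ => ψ z * Φ (R * z)) 0).re) k < 0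

end Pool.Agent.Y246.LG
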