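import Pool.Agent.Y246.LG.Stm

/-!
# Statements for project LG2 (helper246): the level two holds for polynomials with negative zeros
-/

set_option autoImplicit false

namespace Pool.Agent.Y246.LG

open Polynomial

/-- Sums over ordered tuples of distinct indices:
`aug a [c₁, ..., c_k] s` is the sum of `a x₁ ^ c₁ * ... * a x_k ^ c_k` over distinct `x_i ∈ s`. -/
noncomputable def aug {ι : Type} [DecidableEq ι] (a : ι → ℝ) : List ℕ → Finset ι → ℝ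
  | [], _ => 1
  | c :: l, s => ∑ x ∈ s, a x ^ c * aug a l (s.erase x)

/-- LG2-FIVE. -/
def S_FIVE : Prop := ∀ (ι : Type) [DecidableEq ι] (a : ι → ℝ) (s : Finset ι) (τ : ℝ),
  (∀ i, 0 ≤ a i) → 0 ≤ τ →
  0 ≤ τ ^ 2 * aug a [2, 1, 1, 1, 1] s + 8 * τ * aug a [3, 3, 1, 1, 1] s
    - 24 * τ * aug a [3, 2, 2, 1, 1] s + 24 * τ * aug a [2, 2, 2, 2, 1] s
    + 72 * aug a [4, 2, 2, 2, 2] s + 96 * aug a [3, 3, 2, 2, 2] s

/-- LG2-FACT (part 1). -/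
def S_FACT : Prop := ∀ P : ℝ[X], NegRoots P → ∃ (m : ℕ) (a : Fin m → ℝ), (∀ i, 0 ≤ a i) ∧
  P.coeff 0 ≠ 0 ∧ P = C (P.coeff 0) * ∏ i, (1 + C (a i) * X)

/-- LG2-FACT (part 2). -/
def S_COEF : Prop := ∀ (m : ℕ) (a : Fin m → ℝ) (j : ℕ),
  (j.factorial : ℝ) * (∏ i, (1 + C (a i) * X) : ℝ[X]).coeff j = aug a (List.replicate j 1) Finset.univ

/-- LG2-TR: translation of nonnegativity at `0` for `NegRoots` polynomials to all `x ≥ 0`, `k ≥ n + 1`. -/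
def S_TR : Prop := ∀ n : ℕ,
  (∀ P : ℝ[X], NegRoots P → 0 ≤ LT n (fun j => (j.factorial : ℝ) * P.coeff j) (n + 1)) →
  ∀ (P : ℝ[X]) (k : ℕ) (x : ℝ), NegRoots P → n + 1 ≤ k → 0 ≤ x →
    0 ≤ laguerreT (fun y => P.eval y) n k x

end Pool.Agent.Y246.LG
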